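import Pool.Graph.R_seed8.Results.MP_c307ca_nt.AlmostAllToHeight

/-!
# Integer vectors in a slab and the dual lattice
-/

set_option autoImplicit false

namespace Pool.Agent.H15.LB

open Finset
open Pool.Agent.Results.MP_c307ca_nt.AlmostAllToHeight (ev)

theorem addChar_sum {ι A : Type*} [AddCommMonoid A] (ψ : AddChar A ℂ) (s : Finset ι) (f : ι → A) :
    ψ (∑ i ∈ s, f i) = ∏ i ∈ s, ψ (f i) := by
  classical
  induction s using Finset.induction_on with
  | empty => simp
  | insert a s ha ih => rw [Finset.sum_insert ha, Finset.prod_insert ha, AddChar.map_add_eq_mul, ih]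

/-- Parseval's formula on `(ℤ/R)^k` -/
theorem parseval (k R : ℕ) [NeZero R] (S : Finset (Fin k → ℤ))
    (hS : ∀ a ∈ S, ∀ b ∈ S, (∀ i, (R : ℤ) ∣ a i - b i) → a = b) :
    ∑ x : Fin k → ZMod R, ‖∑ a ∈ S, ∏ i, ZMod.stdAddChar ((a i : ZMod R) * x i)‖ ^ 2 =
      (R : ℝ) ^ k * S.card := by
  classical
  have key : ∀ a b : Fin k → ℤ, ∑ x : Fin k → ZMod R,
      ∏ i, ZMod.stdAddChar (((a i - b i : ℤ) : ZMod R) * x i) =
      if (∀ i, (R : ℤ) ∣ a i - b i) then ((R : ℂ) ^ k) else 0 := by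
    intro a b
    have h1 : ∏ i : Fin k, ∑ t : ZMod R, ZMod.stdAddChar (((a i - b i : ℤ) : ZMod R) * t) =
        ∑ x : Fin k → ZMod R, ∏ i, ZMod.stdAddChar (((a i - b i : ℤ) : ZMod R) * x i) := by
      rw [Finset.prod_univ_sum, Fintype.piFinset_univ]
    rw [← h1]
    have h2 : ∀ i : Fin k, ∑ t : ZMod R, ZMod.stdAddChar (((a i - b i : ℤ) : ZMod R) * t) =
        if (R : ℤ) ∣ a i - b i then (R : ℂ) else 0 := by
      intro i
      have h3 := AddChar.sum_mulShift (R' := ℂ) ((a i - b i : ℤ) : ZMod R)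
        (ZMod.isPrimitive_stdAddChar R)
      have h4 : ∑ t : ZMod R, ZMod.stdAddChar (((a i - b i : ℤ) : ZMod R) * t) =
          ∑ t : ZMod R, ZMod.stdAddChar (t * ((a i - b i : ℤ) : ZMod R)) :=
        Finset.sum_congr rfl fun t _ => by rw [mul_comm]
      rw [h4, h3, ZMod.card]
      by_cases h : (R : ℤ) ∣ a i - b i
      · rw [if_pos h, if_pos ((ZMod.intCast_zmod_eq_zero_iff_dvd _ _).mpr h)]
      · rw [if_neg h, if_neg (fun h5 => h ((ZMod.intCast_zmod_eq_zero_iff_dvd _ _).mp h5))]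
        simp
    rw [Finset.prod_congr rfl fun i _ => h2 i]
    by_cases h : ∀ i, (R : ℤ) ∣ a i - b i
    · rw [if_pos h, Finset.prod_congr rfl fun i _ => if_pos (h i), Finset.prod_const,
        Finset.card_univ, Fintype.card_fin]
    · rw [if_neg h]
      push Not at h
      obtain ⟨i, hi⟩ := h
      exact Finset.prod_eq_zero (Finset.mem_univ i) (if_neg hi)
  have hsq : ∀ x : Fin k → ZMod R,
      ((‖∑ a ∈ S, ∏ i, ZMod.stdAddChar ((a i : ZMod R) * x i)‖ ^ 2 : ℝ) : ℂ) =
      ∑ a ∈ S, ∑ b ∈ S, ∏ i, ZMod.stdAddChar (((a i - b i : ℤ) : ZMod R) * x i) := by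
    intro x
    rw [Complex.ofReal_pow, ← Complex.mul_conj', map_sum, Finset.sum_mul_sum]
    refine Finset.sum_congr rfl fun a _ => Finset.sum_congr rfl fun b _ => ?_
    rw [map_prod, ← Finset.prod_mul_distrib]
    refine Finset.prod_congr rfl fun i _ => ?_
    rw [← AddChar.map_neg_eq_conj, ← AddChar.map_add_eq_mul]
    congr 1
    push_cast
    ring
  have hC : ((∑ x : Fin k → ZMod R,
      ‖∑ a ∈ S, ∏ i, ZMod.stdAddChar ((a i : ZMod R) * x i)‖ ^ 2 : ℝ) : ℂ) =
      (((R : ℝ) ^ k * S.card : ℝ) : ℂ) := by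
    rw [Complex.ofReal_sum, Finset.sum_congr rfl fun x _ => hsq x, Finset.sum_comm]
    have h1 : ∀ a ∈ S, ∑ x : Fin k → ZMod R, ∑ b ∈ S,
        ∏ i, ZMod.stdAddChar (((a i - b i : ℤ) : ZMod R) * x i) = (R : ℂ) ^ k := by
      intro a ha
      rw [Finset.sum_comm, Finset.sum_congr rfl fun b _ => key a b, Finset.sum_eq_single a]
      · simp
      · intro b hb hba
        rw [if_neg]
        intro h
        exact hba (hS a ha b hb h).symm
      · intro h
        exact absurd ha h
    rw [Finset.sum_congr rfl h1, Finset.sum_const, nsmul_eq_mul]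
    push_cast
    ring
  exact_mod_cast hC

/-- **Counting by duality.** Without short dual vectors the number of integer vectors in a slab is
at most a constant times its volume. -/
theorem count_dual (n H : ℕ) (hH : 1 ≤ H) (y lam : ℝ) (hlam : 0 < lam)
    (S : Finset (Fin (n + 1) → ℤ))
    (hS : ∀ a ∈ S, (∀ i, |a i| ≤ (H : ℤ)) ∧ |ev a y| ≤ lam)
    (hdual : ∀ m : Fin (n + 1) → ℤ, |(m 0 : ℝ)| ≤ 1 / (8 * lam) →
      (∀ i : Fin (n + 1), |(m i : ℝ) - m 0 * y ^ (i : ℕ)| ≤ 1 / (8 * (n + 1) * H)) → m = 0) :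
    (S.card : ℝ) ≤ 64 * lam * (8 * (n + 1) * H) ^ n := by
  classical
  set R : ℕ := 8 * (n + 1) * H with hR
  have hR0 : 0 < R := by positivity
  have : NeZero R := ⟨hR0.ne'⟩
  have hRR : (R : ℝ) = 8 * (n + 1) * H := by rw [hR]; push_cast; ring
  have hR0R : (0 : ℝ) < R := by exact_mod_cast hR0
  have hH0 : (0 : ℝ) < H := by exact_mod_cast hH
  set A : ℤ := ⌊(R : ℝ) / (16 * lam)⌋ with hA
  have hA1 : (A : ℝ) ≤ R / (16 * lam) := Int.floor_le _
  have hA2 : (R : ℝ) / (16 * lam) < A + 1 := Int.lt_floor_add_one _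
  have hA0 : 0 ≤ A := Int.floor_nonneg.mpr (by positivity)
  set g : ℤ → Fin (n + 1) → ℤ := fun u i => round ((u : ℝ) * y ^ (i : ℕ)) with hg
  have hgr : ∀ (u : ℤ) (i : Fin (n + 1)), |(u : ℝ) * y ^ (i : ℕ) - g u i| ≤ 1 / 2 :=
    fun u i => abs_sub_round _
  have hg0 : ∀ u : ℤ, g u 0 = u := by
    intro u
    simp [hg]
  set x : ℤ → Fin (n + 1) → ZMod R := fun u i => (g u i : ZMod R) with hx
  -- injectivity
  have hinj : ∀ u ∈ Finset.Icc (-A) A, ∀ v ∈ Finset.Icc (-A) A, x u = x v → u = v := by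
    intro u hu v hv huv
    rw [Finset.mem_Icc] at hu hv
    have hdvd : ∀ i, (R : ℤ) ∣ g u i - g v i := by
      intro i
      have h1 : (g u i : ZMod R) = (g v i : ZMod R) := congrFun huv i
      rw [← ZMod.intCast_zmod_eq_zero_iff_dvd]
      push_cast
      rw [h1, sub_self]
    choose m hm using hdvd
    have hmR : ∀ i, (R : ℝ) * m i = g u i - g v i := by
      intro i
      have := hm i
      have h2 : ((g u i - g v i : ℤ) : ℝ) = ((R * m i : ℤ) : ℝ) := by rw [this]
      push_cast at h2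
      linarith
    have hm0 : (R : ℝ) * m 0 = u - v := by rw [hmR 0, hg0, hg0]
    have h0 : m = 0 := by
      apply hdual
      · have h1 : |(R : ℝ) * m 0| ≤ 2 * (R / (16 * lam)) := by
          rw [hm0, abs_le]
          have hu1 : (-A : ℝ) ≤ u := by exact_mod_cast hu.1
          have hu2 : (u : ℝ) ≤ A := by exact_mod_cast hu.2
          have hv1 : (-A : ℝ) ≤ v := by exact_mod_cast hv.1
          have hv2 : (v : ℝ) ≤ A := by exact_mod_cast hv.2
          constructor <;> linarith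
        rw [abs_mul, abs_of_pos hR0R] at h1
        have h2 : (R : ℝ) * |(m 0 : ℝ)| ≤ R * (1 / (8 * lam)) := by
          refine h1.trans (le_of_eq ?_)
          field_simp
          ring
        exact le_of_mul_le_mul_left h2 hR0R
      · intro i
        have h1 : (R : ℝ) * ((m i : ℝ) - m 0 * y ^ (i : ℕ)) =
            ((v : ℝ) * y ^ (i : ℕ) - g v i) - ((u : ℝ) * y ^ (i : ℕ) - g u i) := by
          rw [mul_sub, hmR i, ← mul_assoc, hm0]
          ring
        have h2 : |(R : ℝ) * ((m i : ℝ) - m 0 * y ^ (i : ℕ))| ≤ 1 := by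
          rw [h1]
          refine (abs_sub _ _).trans ?_
          have := hgr u i
          have := hgr v i
          linarith
        rw [abs_mul, abs_of_pos hR0R] at h2
        rw [← hRR, le_div_iff₀ hR0R]
        linarith
    have h3 : m 0 = 0 := by rw [h0]; rfl
    rw [h3] at hm0
    have h4 : (u : ℝ) = v := by
      push_cast at hm0
      linarith
    exact_mod_cast h4
  -- the values at the special points are large
  have hlarge : ∀ u ∈ Finset.Icc (-A) A,
      (S.card : ℝ) / 2 ≤ ‖∑ a ∈ S, ∏ i, ZMod.stdAddChar ((a i : ZMod R) * x u i)‖ := by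
    intro u hu
    rw [Finset.mem_Icc] at hu
    have hprod : ∀ a : Fin (n + 1) → ℤ, ∏ i, ZMod.stdAddChar ((a i : ZMod R) * x u i) =
        Complex.exp (((2 * Real.pi * ((∑ i, (a i : ℝ) * g u i) / R) : ℝ) : ℂ) * Complex.I) := by
      intro a
      rw [← addChar_sum]
      have h1 : ∑ i, (a i : ZMod R) * x u i = ((∑ i, a i * g u i : ℤ) : ZMod R) := by
        rw [hx]
        push_cast
        rfl
      rw [h1, ZMod.stdAddChar_coe]
      congr 1
      push_cast
      ring
    have hre : ∀ a ∈ S, (1 / 2 : ℝ) ≤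
        (∏ i, ZMod.stdAddChar ((a i : ZMod R) * x u i)).re := by
      intro a ha
      obtain ⟨ha1, ha2⟩ := hS a ha
      rw [hprod a, Complex.exp_ofReal_mul_I_re]
      have hsum : ∑ i, (a i : ℝ) * g u i =
          u * ev a y - ∑ i, (a i : ℝ) * ((u : ℝ) * y ^ (i : ℕ) - g u i) := by
        unfold Pool.Agent.Results.MP_c307ca_nt.AlmostAllToHeight.ev
        rw [Finset.mul_sum, ← Finset.sum_sub_distrib]
        refine Finset.sum_congr rfl fun i _ => ?_
        ring
      have hu3 : |(u : ℝ)| ≤ A := by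
        rw [abs_le]
        exact ⟨by exact_mod_cast hu.1, by exact_mod_cast hu.2⟩
      have h1 : |(u : ℝ) * ev a y| ≤ R / 16 := by
        rw [abs_mul]
        calc |(u : ℝ)| * |ev a y| ≤ (R / (16 * lam)) * lam :=
              mul_le_mul (hu3.trans hA1) ha2 (abs_nonneg _) (by positivity)
          _ = R / 16 := by field_simp
      have h2 : |∑ i, (a i : ℝ) * ((u : ℝ) * y ^ (i : ℕ) - g u i)| ≤ R / 16 := by
        refine (Finset.abs_sum_le_sum_abs _ _).trans ?_
        have h3 : ∀ i ∈ (Finset.univ : Finset (Fin (n + 1))),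
            |(a i : ℝ) * ((u : ℝ) * y ^ (i : ℕ) - g u i)| ≤ H * (1 / 2) := by
          intro i _
          rw [abs_mul]
          exact mul_le_mul (by exact_mod_cast ha1 i) (hgr u i) (abs_nonneg _) hH0.le
        refine (Finset.sum_le_sum h3).trans ?_
        rw [Finset.sum_const, Finset.card_univ, Fintype.card_fin, nsmul_eq_mul, hRR]
        push_cast
        apply le_of_eq
        ring
      have h4 : |∑ i, (a i : ℝ) * g u i| ≤ R / 8 := by
        rw [hsum]
        refine (abs_sub _ _).trans ?_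
        linarith
      have h5 : |2 * Real.pi * ((∑ i, (a i : ℝ) * g u i) / R)| ≤ Real.pi / 3 := by
        rw [abs_mul, abs_div, abs_of_pos hR0R, abs_of_pos (by positivity : 0 < 2 * Real.pi)]
        have h6 : |∑ i, (a i : ℝ) * g u i| / R ≤ 1 / 8 := by
          rw [div_le_iff₀ hR0R]
          linarith
        have hpi := Real.pi_pos
        nlinarith
      rw [← Real.cos_abs, ← Real.cos_pi_div_three]
      exact Real.cos_le_cos_of_nonneg_of_le_pi (abs_nonneg _)
        (by have := Real.pi_pos; linarith) h5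
    calc (S.card : ℝ) / 2 = ∑ a ∈ S, (1 / 2 : ℝ) := by
          rw [Finset.sum_const, nsmul_eq_mul]
          ring
      _ ≤ ∑ a ∈ S, (∏ i, ZMod.stdAddChar ((a i : ZMod R) * x u i)).re := Finset.sum_le_sum hre
      _ = (∑ a ∈ S, ∏ i, ZMod.stdAddChar ((a i : ZMod R) * x u i)).re := by
          rw [Complex.re_sum]
      _ ≤ _ := Complex.re_le_norm _
  -- comparison
  have hpar := parseval (n + 1) R S (by
    intro a ha b hb hab
    funext i
    have h1 := hab i
    have h2 : |a i - b i| < (R : ℤ) := by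
      have h3 := (hS a ha).1 i
      have h4 := (hS b hb).1 i
      have h5 : |a i - b i| ≤ 2 * (H : ℤ) := (abs_sub _ _).trans (by linarith)
      have h6 : (2 * (H : ℤ)) < (R : ℤ) := by
        have : 2 * H < R := by
          rw [hR]
          nlinarith
        exact_mod_cast this
      linarith
    have h3 := Int.eq_zero_of_abs_lt_dvd h1 h2
    linarith)
  have hsub : ∑ u ∈ Finset.Icc (-A) A,
      ‖∑ a ∈ S, ∏ i, ZMod.stdAddChar ((a i : ZMod R) * x u i)‖ ^ 2 ≤
      (R : ℝ) ^ (n + 1) * S.card := by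
    rw [← hpar, ← Finset.sum_image (f := fun z : Fin (n + 1) → ZMod R =>
      ‖∑ a ∈ S, ∏ i, ZMod.stdAddChar ((a i : ZMod R) * z i)‖ ^ 2) (g := x) hinj]
    exact Finset.sum_le_univ_sum_of_nonneg fun z => by positivity
  have hlow : ((2 * A + 1 : ℤ) : ℝ) * ((S.card : ℝ) / 2) ^ 2 ≤ (R : ℝ) ^ (n + 1) * S.card := by
    refine le_trans ?_ hsub
    have h1 : ∑ u ∈ Finset.Icc (-A) A, ((S.card : ℝ) / 2) ^ 2 =
        ((2 * A + 1 : ℤ) : ℝ) * ((S.card : ℝ) / 2) ^ 2 := by
      rw [Finset.sum_const, Int.card_Icc, nsmul_eq_mul]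
      congr 1
      have h2 : ((A + 1 - -A).toNat : ℤ) = 2 * A + 1 := by
        rw [Int.toNat_of_nonneg (by linarith)]
        ring
      have h3 : (((A + 1 - -A).toNat : ℤ) : ℝ) = ((2 * A + 1 : ℤ) : ℝ) := by rw [h2]
      exact_mod_cast h3
    rw [← h1]
    refine Finset.sum_le_sum fun u hu => ?_
    exact pow_le_pow_left₀ (by positivity) (hlarge u hu) 2
  rcases Nat.eq_zero_or_pos S.card with h0 | h0
  · rw [h0]
    simp only [Nat.cast_zero]
    positivity
  · have hc0 : (0 : ℝ) < S.card := by exact_mod_cast h0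
    have h1 : ((2 * A + 1 : ℤ) : ℝ) * (S.card : ℝ) ≤ 4 * (R : ℝ) ^ (n + 1) := by
      have h2 : (((2 * A + 1 : ℤ) : ℝ) * (S.card : ℝ)) * S.card ≤
          (4 * (R : ℝ) ^ (n + 1)) * S.card := by nlinarith
      exact le_of_mul_le_mul_right h2 hc0
    have h3 : (R : ℝ) / (16 * lam) ≤ ((2 * A + 1 : ℤ) : ℝ) := by
      have hA0R : (0 : ℝ) ≤ A := by exact_mod_cast hA0
      push_cast
      linarith
    have h4 : (R : ℝ) / (16 * lam) * S.card ≤ 4 * (R : ℝ) ^ (n + 1) :=
      (mul_le_mul_of_nonneg_right h3 hc0.le).trans h1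
    have h5 : (R : ℝ) * S.card ≤ R * (64 * lam * R ^ n) := by
      have h6 : (R : ℝ) * S.card = (R : ℝ) / (16 * lam) * S.card * (16 * lam) := by
        field_simp
      rw [h6]
      calc (R : ℝ) / (16 * lam) * S.card * (16 * lam) ≤ 4 * (R : ℝ) ^ (n + 1) * (16 * lam) :=
            mul_le_mul_of_nonneg_right h4 (by positivity)
        _ = R * (64 * lam * R ^ n) := by ring
    have h7 := le_of_mul_le_mul_left h5 hR0R
    rw [hRR] at h7
    exact h7

end Pool.Agent.H15.LB
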