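import Pool.Agent.H15.LB.A
import Pool.Graph.R_seed8.Results.MP_c5a493_nt.UniformBound

/-!
# The measure of the set of points with short dual vectors
-/

set_option autoImplicit false

namespace Pool.Agent.H15.LB

open Finset Filter MeasureTheory Metric
open Pool.Agent.Results.MP_c307ca_nt.AlmostAllToHeight (ev)
open Pool.Agent.Results.MP_c5a493_nt.UniformBound (main_measure kap kap_nonneg)

/-- there is a short dual vector -/
def Bad (n : ℕ) (r M : ℝ) (y : ℝ) : Prop :=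
  ∃ m : Fin (n + 1) → ℤ, m ≠ 0 ∧ |(m 0 : ℝ)| ≤ M ∧
    ∀ i : Fin (n + 1), |(m i : ℝ) - m 0 * y ^ (i : ℕ)| ≤ r

theorem Bad.mono {n : ℕ} {r r' M M' y : ℝ} (h : Bad n r M y) (hr : r ≤ r') (hM : M ≤ M') :
    Bad n r' M' y := by
  obtain ⟨m, h1, h2, h3⟩ := h
  exact ⟨m, h1, h2.trans hM, fun i => (h3 i).trans hr⟩

theorem Bad.ne {n : ℕ} {r y : ℝ} (hr : r < 1) (m : Fin (n + 1) → ℤ) (hm : m ≠ 0)
    (h : ∀ i : Fin (n + 1), |(m i : ℝ) - m 0 * y ^ (i : ℕ)| ≤ r) : m 0 ≠ 0 := by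
  intro h0
  apply hm
  funext i
  have h1 := h i
  rw [h0] at h1
  simp only [Int.cast_zero, zero_mul, sub_zero] at h1
  have h2 : |(m i : ℝ)| < 1 := lt_of_le_of_lt h1 hr
  have h3 : |m i| < 1 := by exact_mod_cast h2
  simpa using h3

theorem Bad.one_le {n : ℕ} {r M y : ℝ} (hr : r < 1) (h : Bad n r M y) : 1 ≤ M := by
  obtain ⟨m, h1, h2, h3⟩ := h
  have h4 := Bad.ne hr m h1 h3
  have h5 : (1 : ℤ) ≤ |m 0| := Int.one_le_abs h4
  have h6 : (1 : ℝ) ≤ |(m 0 : ℝ)| := by exact_mod_cast h5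
  linarith

attribute [local instance] Matrix.seminormedAddCommGroup

/-- transference: a short dual vector gives a polynomial which is small at the point -/
theorem transfer (n : ℕ) (hn : 1 ≤ n) (N r M y : ℝ) (hN : 1 ≤ N) (hr0 : 0 < r) (hr : r < 1)
    (hy : |y| ≤ N) (h : Bad n r M y) :
    ∃ k : ℕ, ((2 : ℝ) ^ k) ≤ 2 * (2 * (n + 1) * N ^ n * M) ^ ((1 : ℝ) / n) ∧
      ∃ a : Fin (n + 1) → ℤ, a ≠ 0 ∧
        |∑ j, (a j : ℝ) * y ^ (j : ℕ)| ≤
          (n + 1) * (2 ^ n * (2 * (n + 1) * N ^ n)) * r * 2 ^ k / ((2 : ℝ) ^ k) ^ n ∧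
        ∀ j, |(a j : ℝ)| ≤ 2 ^ k := by
  obtain ⟨m, hm0, hmM, hmr⟩ := h
  have hne := Bad.ne hr m hm0 hmr
  have hμ1 : (1 : ℝ) ≤ |(m 0 : ℝ)| := by exact_mod_cast Int.one_le_abs hne
  set μ : ℝ := |(m 0 : ℝ)| with hμ
  have hn0 : (0 : ℝ) < n := by exact_mod_cast hn
  have hNn : (1 : ℝ) ≤ N ^ n := one_le_pow₀ hN
  set D : ℝ := 2 * (n + 1) * N ^ n with hD
  have hD1 : 1 ≤ D := by
    rw [hD]
    nlinarith
  have hμ0 : 0 < μ := by linarith
  -- bound for the vector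
  have hmi : ∀ i : Fin (n + 1), |(m i : ℝ)| ≤ 2 * N ^ n * μ := by
    intro i
    have h1 : (m i : ℝ) = ((m i : ℝ) - m 0 * y ^ (i : ℕ)) + m 0 * y ^ (i : ℕ) := by ring
    rw [h1]
    refine (abs_add_le _ _).trans ?_
    rw [abs_mul, abs_pow]
    have h2 : |y| ^ (i : ℕ) ≤ N ^ n := by
      refine (pow_le_pow_left₀ (abs_nonneg _) hy _).trans ?_
      exact pow_le_pow_right₀ hN (Nat.lt_succ_iff.mp i.2)
    have h3 := hmr i
    have h4 : μ * |y| ^ (i : ℕ) ≤ μ * N ^ n := mul_le_mul_of_nonneg_left h2 hμ0.le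
    have h5 : (1 : ℝ) ≤ N ^ n * μ := by nlinarith
    rw [← hμ]
    linarith
  -- Siegel's lemma
  set B : Matrix (Fin 1) (Fin (n + 1)) ℤ := Matrix.of (fun _ j => m j) with hB
  obtain ⟨a, ha0, hBa, hanorm⟩ := Int.Matrix.exists_ne_zero_int_vec_norm_le B
    (by simp; omega) (by simp)
  have hsum : ∑ j, (a j : ℝ) * m j = 0 := by
    have h1 := congrFun hBa 0
    simp only [hB, Matrix.mulVec, dotProduct, Matrix.of_apply, Pi.zero_apply] at h1
    have h2 : ((∑ j, m j * a j : ℤ) : ℝ) = 0 := by rw [h1]; simp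
    push_cast at h2
    rw [← h2]
    exact Finset.sum_congr rfl fun j _ => mul_comm _ _
  have hBn : ‖B‖ ≤ 2 * N ^ n * μ := by
    rw [Matrix.norm_le_iff (by positivity)]
    intro i j
    rw [hB, Matrix.of_apply, Int.norm_eq_abs]
    exact hmi j
  have hZ : ‖a‖ ≤ (D * μ) ^ ((1 : ℝ) / n) := by
    refine hanorm.trans ?_
    simp only [Fintype.card_fin]
    have h1 : ((1 : ℕ) : ℝ) / (((n + 1 : ℕ) : ℝ) - ((1 : ℕ) : ℝ)) = 1 / n := by
      push_cast
      congr 1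
      ring
    rw [h1]
    apply Real.rpow_le_rpow (by positivity) _ (by positivity)
    have h2 : max 1 ‖B‖ ≤ 2 * N ^ n * μ := by
      apply max_le _ hBn
      nlinarith
    calc (((n + 1 : ℕ) : ℝ)) * max 1 ‖B‖ ≤ ((n + 1 : ℕ) : ℝ) * (2 * N ^ n * μ) :=
          mul_le_mul_of_nonneg_left h2 (by positivity)
      _ = D * μ := by rw [hD]; push_cast; ring
  set Z : ℝ := (D * μ) ^ ((1 : ℝ) / n) with hZdef
  have hZ1 : 1 ≤ Z := Real.one_le_rpow (by nlinarith) (by positivity)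
  have hZn : Z ^ n = D * μ := by
    rw [hZdef, ← Real.rpow_natCast, ← Real.rpow_mul (by positivity)]
    rw [one_div, inv_mul_cancel₀ hn0.ne', Real.rpow_one]
  -- choice of k
  obtain ⟨k, hk1, hk2⟩ : ∃ k : ℕ, Z ≤ 2 ^ k ∧ (2 : ℝ) ^ k ≤ 2 * Z := by
    have hex : ∃ k : ℕ, Z ≤ 2 ^ k := by
      obtain ⟨k, hk⟩ := pow_unbounded_of_one_lt Z (by norm_num : (1 : ℝ) < 2)
      exact ⟨k, hk.le⟩
    classical
    refine ⟨Nat.find hex, Nat.find_spec hex, ?_⟩
    rcases Nat.eq_zero_or_pos (Nat.find hex) with h0 | h0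
    · rw [h0]
      simp
      linarith
    · have h1 := Nat.find_min hex (Nat.sub_lt h0 one_pos)
      rw [not_le] at h1
      have h2 : (2 : ℝ) ^ (Nat.find hex) = 2 * 2 ^ (Nat.find hex - 1) := by
        rw [← pow_succ']
        congr 1
        omega
      rw [h2]
      linarith
  have hk0 : (0 : ℝ) < 2 ^ k := by positivity
  have haj : ∀ j, |(a j : ℝ)| ≤ 2 ^ k := by
    intro j
    have h1 : ‖a j‖ ≤ ‖a‖ := norm_le_pi_norm a j
    rw [Int.norm_eq_abs] at h1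
    linarith
  refine ⟨k, ?_, a, ha0, ?_, haj⟩
  · refine hk2.trans ?_
    apply mul_le_mul_of_nonneg_left _ (by norm_num)
    rw [hZdef]
    apply Real.rpow_le_rpow (by positivity) _ (by positivity)
    exact mul_le_mul_of_nonneg_left hmM (by positivity)
  · have h1 : |(m 0 : ℝ) * ∑ j, (a j : ℝ) * y ^ (j : ℕ)| ≤ (n + 1) * 2 ^ k * r := by
      have h2 : (m 0 : ℝ) * ∑ j, (a j : ℝ) * y ^ (j : ℕ) =
          -∑ j, (a j : ℝ) * ((m j : ℝ) - m 0 * y ^ (j : ℕ)) := by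
        have h3 : ∑ j, (a j : ℝ) * ((m j : ℝ) - m 0 * y ^ (j : ℕ)) =
            ∑ j, (a j : ℝ) * m j - (m 0 : ℝ) * ∑ j, (a j : ℝ) * y ^ (j : ℕ) := by
          rw [Finset.mul_sum, ← Finset.sum_sub_distrib]
          refine Finset.sum_congr rfl fun j _ => ?_
          ring
        rw [h3, hsum]
        ring
      rw [h2, abs_neg]
      refine (Finset.abs_sum_le_sum_abs _ _).trans ?_
      have h4 : ∀ j ∈ (Finset.univ : Finset (Fin (n + 1))),
          |(a j : ℝ) * ((m j : ℝ) - m 0 * y ^ (j : ℕ))| ≤ 2 ^ k * r := by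
        intro j _
        rw [abs_mul]
        exact mul_le_mul (haj j) (hmr j) (abs_nonneg _) hk0.le
      refine (Finset.sum_le_sum h4).trans ?_
      rw [Finset.sum_const, Finset.card_univ, Fintype.card_fin, nsmul_eq_mul]
      push_cast
      apply le_of_eq
      ring
    rw [abs_mul, ← hμ] at h1
    have h5 : ((2 : ℝ) ^ k) ^ n ≤ 2 ^ n * (D * μ) := by
      calc ((2 : ℝ) ^ k) ^ n ≤ (2 * Z) ^ n := pow_le_pow_left₀ hk0.le hk2 n
        _ = 2 ^ n * (D * μ) := by rw [mul_pow, hZn]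
    rw [le_div_iff₀ (by positivity)]
    set s : ℝ := |∑ j, (a j : ℝ) * y ^ (j : ℕ)| with hs
    have hs0 : 0 ≤ s := abs_nonneg _
    calc s * ((2 : ℝ) ^ k) ^ n ≤ s * (2 ^ n * (D * μ)) := mul_le_mul_of_nonneg_left h5 hs0
      _ = (2 ^ n * D) * (μ * s) := by ring
      _ ≤ (2 ^ n * D) * ((n + 1) * 2 ^ k * r) := mul_le_mul_of_nonneg_left h1 (by positivity)
      _ = (n + 1) * (2 ^ n * D) * r * 2 ^ k := by ring

/-- the sets of the theorem of Kleinbock and Margulis -/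
def EE (n : ℕ) (N C r : ℝ) (k : ℕ) : Set ℝ :=
  {x ∈ ball (0 : ℝ) N | ∃ a : Fin (n + 1) → ℤ, a ≠ 0 ∧
    |∑ j, (a j : ℝ) * x ^ (j : ℕ)| ≤ C * r * 2 ^ k / ((2 : ℝ) ^ k) ^ n ∧
    ∀ j, |(a j : ℝ)| ≤ (2 : ℝ) ^ k}

theorem EE_measure (n : ℕ) (hn : 1 ≤ n) (N C r : ℝ) (hN : (n : ℝ) + 1 ≤ N) (hC : 0 < C)
    (hr : 0 < r) (k : ℕ) (hk : C * r * 2 ^ k ≤ 1) :
    volume (EE n N C r k) ≤ ENNReal.ofReal ((kap n * (4 * n * (2 * (n + 1) ^ 2) ^ ((1 : ℝ) / n)) * N) *
      (C * r * 2 ^ k) ^ ((1 : ℝ) / (n * (n + 1)))) := by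
  have hn0 : (0 : ℝ) < n := by exact_mod_cast hn
  have h2k : (0 : ℝ) < 2 ^ k := by positivity
  set x : ℝ := C * r * 2 ^ k with hx
  have hx0 : 0 < x := by positivity
  have hη : (x ^ ((1 : ℝ) / (n + 1))) ^ (n + 1) = (x / ((2 : ℝ) ^ k) ^ n) * ((2 : ℝ) ^ k) ^ n := by
    rw [← Real.rpow_natCast, ← Real.rpow_mul hx0.le]
    push_cast
    rw [one_div, inv_mul_cancel₀ (by positivity), Real.rpow_one]
    field_simp
  have h := main_measure (n := n) hn (N := N) (T := 2 ^ k) (δ := x / ((2 : ℝ) ^ k) ^ n)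
    (η := x ^ ((1 : ℝ) / (n + 1))) hN (one_le_pow₀ (by norm_num)) (by positivity)
    (by positivity) (Real.rpow_le_one hx0.le hk (by positivity)) hη
  refine h.trans (ENNReal.ofReal_le_ofReal (le_of_eq ?_))
  have h1 : ((n : ℝ) + 1) * (2 * (n + 1) * x ^ ((1 : ℝ) / (n + 1))) =
      (2 * (n + 1) ^ 2) * x ^ ((1 : ℝ) / (n + 1)) := by ring
  rw [h1, Real.mul_rpow (by positivity) (by positivity), ← Real.rpow_mul hx0.le]
  have h2 : (1 : ℝ) / (n + 1) * (1 / n) = 1 / (n * (n + 1)) := by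
    field_simp
  rw [h2]
  ring

theorem bad_params (D C1 C5 g : ℝ) (n : ℕ) (hn : 1 ≤ n) (hD : 0 < D) (hC1 : 1 ≤ C1)
    (σ : ℝ) (hσ : 0 < σ) (hg : 0 < g) :
    ∀ᶠ H : ℕ in atTop, 3 ≤ H ∧ C1 * (2 * D ^ ((1 : ℝ) / n) * (H : ℝ) ^ (-(g / n))) ≤ 1 ∧
      C5 * (3 * Real.log H) ≤ (H : ℝ) ^ σ := by
  have hn0 : (0 : ℝ) < n := by exact_mod_cast hn
  have hD0 : 0 < D ^ ((1 : ℝ) / n) := by positivity
  have h1 : Tendsto (fun H : ℕ => (H : ℝ) ^ (-(g / n))) atTop (nhds 0) :=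
    (tendsto_rpow_neg_atTop (by positivity)).comp tendsto_natCast_atTop_atTop
  have h2 : ∀ᶠ H : ℕ in atTop, (H : ℝ) ^ (-(g / n)) < 1 / (C1 * (2 * D ^ ((1 : ℝ) / n))) :=
    h1.eventually (gt_mem_nhds (by positivity))
  have h3 : ∀ᶠ x : ℝ in atTop, ‖Real.log x‖ ≤ (1 / (3 * (|C5| + 1))) * ‖x ^ σ‖ :=
    (isLittleO_log_rpow_atTop hσ).bound (by positivity)
  have h4 := tendsto_natCast_atTop_atTop (R := ℝ).eventually h3
  filter_upwards [h2, h4, eventually_ge_atTop 3] with H ha hb hc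
  have hH1 : (1 : ℝ) ≤ H := by exact_mod_cast (by omega : 1 ≤ H)
  have hlog : 0 ≤ Real.log H := Real.log_nonneg hH1
  refine ⟨hc, ?_, ?_⟩
  · rw [lt_div_iff₀ (by positivity)] at ha
    linarith
  · rw [Real.norm_of_nonneg hlog, Real.norm_of_nonneg (by positivity), one_div,
      ← div_eq_inv_mul, le_div_iff₀ (by positivity)] at hb
    have h5 : C5 ≤ |C5| + 1 := by
      have := le_abs_self C5
      linarith
    nlinarith

/-- **The set of points with short dual vectors has small measure.** -/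
theorem bad_measure (n : ℕ) (hn : 1 ≤ n) (N : ℝ) (hN : (n : ℝ) + 1 ≤ N) (g : ℝ) (hg : 0 < g) :
    ∃ σ : ℝ, 0 < σ ∧ ∀ᶠ H : ℕ in atTop,
      volume {y ∈ ball (0 : ℝ) N | Bad n (1 / H) ((H : ℝ) ^ ((n : ℝ) - g)) y} ≤
        ENNReal.ofReal ((H : ℝ) ^ (-σ)) := by
  classical
  have hn0 : (0 : ℝ) < n := by exact_mod_cast hn
  have hN1 : 1 ≤ N := by linarith
  have hNn : (1 : ℝ) ≤ N ^ n := one_le_pow₀ hN1
  set D : ℝ := 2 * (n + 1) * N ^ n with hD
  have hD1 : 1 ≤ D := by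
    rw [hD]
    nlinarith
  set C1 : ℝ := (n + 1) * (2 ^ n * D) with hC1
  have hC11 : 1 ≤ C1 := by
    have h2 : (1 : ℝ) ≤ 2 ^ n := one_le_pow₀ (by norm_num)
    have h3 : (1 : ℝ) ≤ 2 ^ n * D := by nlinarith
    rw [hC1]
    nlinarith
  set α : ℝ := (1 : ℝ) / (n * (n + 1)) with hα
  have hα0 : 0 < α := by positivity
  set C3 : ℝ := kap n * (4 * n * (2 * (n + 1) ^ 2) ^ ((1 : ℝ) / n)) * N with hC3
  have hC30 : 0 ≤ C3 := by
    have := kap_nonneg n
    positivity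
  set C4 : ℝ := (C1 * (2 * D ^ ((1 : ℝ) / n))) ^ α with hC4
  have hC40 : 0 ≤ C4 := by positivity
  set σ : ℝ := g * α / (2 * n) with hσ
  have hσ0 : 0 < σ := by positivity
  refine ⟨σ, hσ0, ?_⟩
  filter_upwards [bad_params D C1 (C3 * C4) g n hn (by linarith) hC11 σ hσ0 hg] with H hH
  obtain ⟨hH3, hsmall, hlogσ⟩ := hH
  have hH0 : (0 : ℝ) < H := by exact_mod_cast (by omega : 0 < H)
  have hH1 : (1 : ℝ) ≤ H := by exact_mod_cast (by omega : 1 ≤ H)
  have hr1 : (1 : ℝ) / H < 1 := by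
    rw [div_lt_one hH0]
    exact_mod_cast (by omega : 1 < H)
  set E : ℝ := 2 * D ^ ((1 : ℝ) / n) * (H : ℝ) ^ (-(g / n)) with hE
  have hE0 : 0 < E := by positivity
  have hE1 : E ≤ 1 := by nlinarith
  have hZm : 2 * (D * (H : ℝ) ^ ((n : ℝ) - g)) ^ ((1 : ℝ) / n) = E * H := by
    rw [Real.mul_rpow (by positivity) (by positivity), ← Real.rpow_mul hH0.le, hE]
    have h1 : ((n : ℝ) - g) * (1 / n) = -(g / n) + 1 := by
      field_simp
      ring
    rw [h1, Real.rpow_add hH0, Real.rpow_one]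
    ring
  set S : Finset ℕ := (range (Nat.log 2 H + 1)).filter (fun k => (2 : ℝ) ^ k ≤ E * H) with hS
  have hsub : {y ∈ ball (0 : ℝ) N | Bad n (1 / H) ((H : ℝ) ^ ((n : ℝ) - g)) y} ⊆
      ⋃ k ∈ S, EE n N C1 (1 / H) k := by
    rintro y ⟨hyN, hbad⟩
    have hy : |y| ≤ N := by
      rw [mem_ball, dist_zero_right, Real.norm_eq_abs] at hyN
      exact hyN.le
    obtain ⟨k, hk, a, ha0, ha1, ha2⟩ := transfer n hn N (1 / H) _ y hN1 (by positivity) hr1 hy hbad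
    rw [← hD, hZm] at hk
    simp only [Set.mem_iUnion]
    refine ⟨k, ?_, hyN, a, ha0, ?_, ha2⟩
    · rw [hS, Finset.mem_filter, Finset.mem_range]
      refine ⟨?_, hk⟩
      have h1 : (2 : ℝ) ^ k ≤ H := by nlinarith
      have h2 : 2 ^ k ≤ H := by exact_mod_cast h1
      exact Nat.lt_succ_of_le (Nat.le_log_of_pow_le (by norm_num) h2)
    · rw [hC1]
      exact ha1
  have hone : ∀ k ∈ S, volume (EE n N C1 (1 / H) k) ≤ ENNReal.ofReal (C3 * (C1 * E) ^ α) := by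
    intro k hk
    rw [hS, Finset.mem_filter] at hk
    have h1 : C1 * (1 / H) * 2 ^ k ≤ C1 * E := by
      have h2 : (1 / (H : ℝ)) * 2 ^ k ≤ E := by
        rw [one_div, ← div_eq_inv_mul, div_le_iff₀ hH0]
        exact hk.2
      calc C1 * (1 / H) * 2 ^ k = C1 * ((1 / H) * 2 ^ k) := by ring
        _ ≤ C1 * E := mul_le_mul_of_nonneg_left h2 (by linarith)
    refine (EE_measure n hn N C1 (1 / H) hN (by linarith) (by positivity) k
      (h1.trans hsmall)).trans (ENNReal.ofReal_le_ofReal ?_)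
    apply mul_le_mul_of_nonneg_left _ hC30
    exact Real.rpow_le_rpow (by positivity) h1 hα0.le
  calc volume {y ∈ ball (0 : ℝ) N | Bad n (1 / H) ((H : ℝ) ^ ((n : ℝ) - g)) y}
      ≤ volume (⋃ k ∈ S, EE n N C1 (1 / H) k) := measure_mono hsub
    _ ≤ ∑ k ∈ S, volume (EE n N C1 (1 / H) k) := measure_biUnion_finset_le _ _
    _ ≤ ∑ k ∈ S, ENNReal.ofReal (C3 * (C1 * E) ^ α) := Finset.sum_le_sum hone
    _ = ENNReal.ofReal ((S.card : ℝ) * (C3 * (C1 * E) ^ α)) := by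
        rw [Finset.sum_const, nsmul_eq_mul,
          ENNReal.ofReal_mul (p := (S.card : ℝ)) (Nat.cast_nonneg _), ENNReal.ofReal_natCast]
    _ ≤ ENNReal.ofReal ((H : ℝ) ^ (-σ)) := by
        apply ENNReal.ofReal_le_ofReal
        have hcard : (S.card : ℝ) ≤ 3 * Real.log H := by
          have h1 : S.card ≤ Nat.log 2 H + 1 := by
            refine (Finset.card_filter_le _ _).trans ?_
            rw [Finset.card_range]
          have h2 : ((2 : ℝ) ^ (Nat.log 2 H)) ≤ H := by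
            exact_mod_cast Nat.pow_log_le_self 2 (by omega : H ≠ 0)
          have h3 : (Nat.log 2 H : ℝ) * Real.log 2 ≤ Real.log H := by
            rw [← Real.log_pow]
            exact Real.log_le_log (by positivity) h2
          have h4 := Real.log_two_gt_d9
          have h5 : (0 : ℝ) ≤ Nat.log 2 H := Nat.cast_nonneg _
          have h6 : (1 : ℝ) ≤ Real.log H := by
            rw [Real.le_log_iff_exp_le hH0]
            have := Real.exp_one_lt_d9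
            have h7 : (3 : ℝ) ≤ H := by exact_mod_cast hH3
            linarith
          have h8 : (S.card : ℝ) ≤ Nat.log 2 H + 1 := by exact_mod_cast h1
          nlinarith
        have hpow : (C1 * E) ^ α = C4 * ((H : ℝ) ^ (-σ) * (H : ℝ) ^ (-σ)) := by
          have h1 : C1 * E = (C1 * (2 * D ^ ((1 : ℝ) / n))) * (H : ℝ) ^ (-(g / n)) := by
            rw [hE]
            ring
          rw [h1, Real.mul_rpow (by positivity) (by positivity), hC4, ← Real.rpow_mul hH0.le,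
            ← Real.rpow_add hH0]
          congr 2
          rw [hσ]
          field_simp
          ring
        have hHσ : 0 < (H : ℝ) ^ (-σ) := by positivity
        have hinv : (H : ℝ) ^ σ * (H : ℝ) ^ (-σ) = 1 := by
          rw [← Real.rpow_add hH0]
          simp
        rw [hpow]
        calc (S.card : ℝ) * (C3 * (C4 * ((H : ℝ) ^ (-σ) * (H : ℝ) ^ (-σ))))
            ≤ (3 * Real.log H) * (C3 * (C4 * ((H : ℝ) ^ (-σ) * (H : ℝ) ^ (-σ)))) :=
              mul_le_mul_of_nonneg_right hcard (by positivity)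
          _ = (C3 * C4 * (3 * Real.log H)) * (H : ℝ) ^ (-σ) * (H : ℝ) ^ (-σ) := by ring
          _ ≤ (H : ℝ) ^ σ * (H : ℝ) ^ (-σ) * (H : ℝ) ^ (-σ) := by
              apply mul_le_mul_of_nonneg_right _ hHσ.le
              exact mul_le_mul_of_nonneg_right hlogσ hHσ.le
          _ = (H : ℝ) ^ (-σ) := by rw [hinv, one_mul]

end Pool.Agent.H15.LB
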