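import Pool.Agent.H15.LB.B

/-!
# The polynomials which are small at a point with short dual vectors
-/

set_option autoImplicit false

namespace Pool.Agent.H15.LB

open Finset Filter MeasureTheory Metric
open Pool.Agent.Results.MP_c307ca_nt.AlmostAllToHeight (ev box mem_box KK KK_nonneg ev_sub)

/-- the neighbourhood of a point with a short dual vector -/
theorem thick (n : ℕ) (N r M y y' : ℝ) (hN : 1 ≤ N) (hy : |y| ≤ N) (hy' : |y'| ≤ N)
    (hM : 0 ≤ M) (h : Bad n r M y) (hd : M * (|y' - y| * (n * N ^ n)) ≤ r) :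
    Bad n (2 * r) M y' := by
  obtain ⟨m, hm0, hmM, hmr⟩ := h
  refine ⟨m, hm0, hmM, fun i => ?_⟩
  have h1 : (m i : ℝ) - m 0 * y' ^ (i : ℕ) =
      ((m i : ℝ) - m 0 * y ^ (i : ℕ)) - m 0 * (y' ^ (i : ℕ) - y ^ (i : ℕ)) := by ring
  rw [h1]
  refine (abs_sub _ _).trans ?_
  rw [abs_mul]
  have hi : (i : ℕ) ≤ n := Nat.lt_succ_iff.mp i.2
  have h2 : |y' ^ (i : ℕ) - y ^ (i : ℕ)| ≤ |y' - y| * (n * N ^ n) := by
    refine (abs_pow_sub_pow_le y' y (i : ℕ)).trans ?_
    rw [mul_assoc]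
    refine mul_le_mul_of_nonneg_left ?_ (abs_nonneg _)
    refine mul_le_mul (by exact_mod_cast hi) ?_ (by positivity) (by positivity)
    calc max |y'| |y| ^ ((i : ℕ) - 1) ≤ N ^ ((i : ℕ) - 1) :=
          pow_le_pow_left₀ (le_max_of_le_left (abs_nonneg _)) (max_le hy' hy) _
      _ ≤ N ^ n := pow_le_pow_right₀ hN (by omega)
  have h3 : |(m 0 : ℝ)| * |y' ^ (i : ℕ) - y ^ (i : ℕ)| ≤ M * (|y' - y| * (n * N ^ n)) :=
    mul_le_mul hmM h2 (abs_nonneg _) hM
  have := hmr i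
  linarith

/-- the small radius of the dual body -/
noncomputable def r0 (n H : ℕ) : ℝ := 1 / (8 * (n + 1) * H)

theorem r0_pos (n H : ℕ) (hH : 1 ≤ H) : 0 < r0 n H := by
  unfold r0
  have : (0 : ℝ) < H := by exact_mod_cast hH
  positivity

theorem r0_lt (n H : ℕ) (hH : 1 ≤ H) : r0 n H < 1 := by
  unfold r0
  have h1 : (1 : ℝ) ≤ H := by exact_mod_cast hH
  have h2 : (0 : ℝ) ≤ n := Nat.cast_nonneg n
  rw [div_lt_one (by positivity)]
  nlinarith

/-- the number of polynomials which are small at a good point -/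
theorem good_count (n H : ℕ) (hH : 1 ≤ H) (y lam : ℝ) (hlam : 0 < lam) (S : Finset (Fin (n + 1) → ℤ))
    (hS : ∀ a ∈ S, (∀ i, |a i| ≤ (H : ℤ)) ∧ |ev a y| ≤ lam)
    (hgood : ¬ Bad n (r0 n H) (1 / (8 * lam)) y) :
    (S.card : ℝ) ≤ 64 * lam * (8 * (n + 1) * H) ^ n := by
  refine count_dual n H hH y lam hlam S hS fun m hm1 hm2 => ?_
  by_contra h
  exact hgood ⟨m, h, hm1, hm2⟩

/-- one step of the scale -/
theorem stage (n T H : ℕ) (hn : 1 ≤ n) (hH : 1 ≤ H) (lam Lam V : ℝ) (hlam : 0 < lam)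
    (hLam : lam ≤ Lam) (hLH : lam ≤ H) (hV0 : 0 ≤ V)
    (hV : volume {y ∈ ball (0 : ℝ) (T + 2) | Bad n (2 * r0 n H) (1 / (8 * lam)) y} ≤
      ENNReal.ofReal V) :
    ∃ B : Finset (Fin (n + 1) → ℤ),
      (∀ a : Fin (n + 1) → ℤ, (∀ i, |a i| ≤ (H : ℤ)) → ∀ y : ℝ, |y| ≤ T + 1 → |ev a y| ≤ Lam →
        Bad n (r0 n H) (1 / (8 * lam)) y → ¬ Bad n (r0 n H) (1 / (8 * Lam)) y → a ∈ B) ∧
      (B.card : ℝ) ≤ 128 * KK n (T + 1) * (8 * (n + 1)) ^ n * (Lam / lam) * V * (H : ℝ) ^ (n + 1) := by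
  classical
  have hH0 : (0 : ℝ) < H := by exact_mod_cast hH
  have hn1 : (1 : ℝ) ≤ n := by exact_mod_cast hn
  have hT0 : (0 : ℝ) ≤ T := Nat.cast_nonneg T
  have hKK : KK n (T + 1) = (n + 1) * (n * ((T : ℝ) + 2) ^ n) := by
    unfold KK
    push_cast
    ring
  have hTn : (1 : ℝ) ≤ ((T : ℝ) + 2) ^ n := one_le_pow₀ (by linarith)
  have hKK1 : 1 ≤ KK n (T + 1) := by
    rw [hKK]
    nlinarith [mul_le_mul hn1 hTn zero_le_one (by linarith : (0 : ℝ) ≤ n)]
  have hKK0 : 0 < KK n (T + 1) := by linarith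
  set s : ℝ := lam / (H * KK n (T + 1)) with hs
  have hs0 : 0 < s := by positivity
  have hsKK : KK n (T + 1) * H * s = lam := by
    rw [hs]
    field_simp
  have hs1 : s ≤ 1 := by
    rw [hs, div_le_one (by positivity)]
    nlinarith
  have hM0 : (0 : ℝ) ≤ 1 / (8 * lam) := by positivity
  -- the condition of a point
  set Q : ℝ → Prop := fun y => |y| ≤ T + 1 ∧ Bad n (r0 n H) (1 / (8 * lam)) y ∧
    ¬ Bad n (r0 n H) (1 / (8 * Lam)) y with hQ
  set Zs : Finset ℤ := (Icc (-⌈((T : ℝ) + 1) / s⌉ - 1) (⌈((T : ℝ) + 1) / s⌉ + 1)).filter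
    (fun z => ∃ y, Q y ∧ ⌊y / s⌋ = z) with hZs
  have hmem : ∀ y, Q y → ⌊y / s⌋ ∈ Zs := by
    intro y hy
    rw [hZs, Finset.mem_filter, Finset.mem_Icc]
    refine ⟨⟨?_, ?_⟩, y, hy, rfl⟩
    · have h1 : -(((T : ℝ) + 1) / s) ≤ y / s := by
        rw [← neg_div]
        exact div_le_div_of_nonneg_right (abs_le.mp hy.1).1 hs0.le
      have h2 : (-⌈((T : ℝ) + 1) / s⌉ - 1 : ℤ) ≤ ⌊y / s⌋ := by
        rw [Int.le_floor]
        push_cast
        have := Int.le_ceil (((T : ℝ) + 1) / s)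
        linarith
      exact h2
    · have h1 : y / s ≤ ((T : ℝ) + 1) / s := div_le_div_of_nonneg_right (abs_le.mp hy.1).2 hs0.le
      have h2 : (⌊y / s⌋ : ℝ) ≤ ⌈((T : ℝ) + 1) / s⌉ + 1 := by
        have := Int.floor_le (y / s)
        have := Int.le_ceil (((T : ℝ) + 1) / s)
        linarith
      exact_mod_cast h2
  have hch : ∀ z ∈ Zs, ∃ y, Q y ∧ ⌊y / s⌋ = z := fun z hz => (Finset.mem_filter.mp hz).2
  choose! Y hYQ hYz using hch
  have hclose : ∀ y y' : ℝ, ⌊y / s⌋ = ⌊y' / s⌋ → |y - y'| < s := by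
    intro y y' h
    have h1 := Int.abs_sub_lt_one_of_floor_eq_floor h
    rw [← sub_div, abs_div, abs_of_pos hs0, div_lt_one hs0] at h1
    exact h1
  -- the cells
  have hcell : ∀ z ∈ Zs, Set.Ico ((z : ℝ) * s) ((z + 1) * s) ⊆
      {y ∈ ball (0 : ℝ) (T + 2) | Bad n (2 * r0 n H) (1 / (8 * lam)) y} := by
    intro z hz y hy
    have hfl : ⌊y / s⌋ = z := by
      rw [Int.floor_eq_iff]
      constructor
      · rw [le_div_iff₀ hs0]
        exact hy.1
      · rw [div_lt_iff₀ hs0]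
        exact hy.2
    have h1 := hclose y (Y z) (hfl.trans (hYz z hz).symm)
    have h2 := hYQ z hz
    have h3 : |y| < T + 2 := by
      have h4 : y = (y - Y z) + Y z := by ring
      rw [h4]
      refine (abs_add_le _ _).trans_lt ?_
      have := h2.1
      linarith
    refine ⟨?_, ?_⟩
    · rw [mem_ball, dist_zero_right, Real.norm_eq_abs]
      exact h3
    · refine thick n (T + 2) (r0 n H) _ (Y z) y (by linarith) (h2.1.trans (by linarith)) h3.le hM0
        h2.2.1 ?_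
      have h5 : 1 / (8 * lam) * (s * (n * ((T : ℝ) + 2) ^ n)) = r0 n H := by
        rw [hs, hKK]
        unfold r0
        have : (0 : ℝ) < ((T : ℝ) + 2) ^ n := by positivity
        field_simp
      rw [← h5]
      apply mul_le_mul_of_nonneg_left _ hM0
      exact mul_le_mul_of_nonneg_right h1.le (by positivity)
  have hdisj : (Zs : Set ℤ).PairwiseDisjoint (fun z : ℤ => Set.Ico ((z : ℝ) * s) ((z + 1) * s)) := by
    intro z _ z' _ hzz
    rw [Function.onFun, Set.disjoint_left]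
    intro y hy hy'
    apply hzz
    have h1 : ⌊y / s⌋ = z := by
      rw [Int.floor_eq_iff]
      exact ⟨by rw [le_div_iff₀ hs0]; exact hy.1, by rw [div_lt_iff₀ hs0]; exact hy.2⟩
    have h2 : ⌊y / s⌋ = z' := by
      rw [Int.floor_eq_iff]
      exact ⟨by rw [le_div_iff₀ hs0]; exact hy'.1, by rw [div_lt_iff₀ hs0]; exact hy'.2⟩
    rw [← h1, ← h2]
  have hcardZ : (Zs.card : ℝ) * s ≤ V := by
    have h1 : volume (⋃ z ∈ Zs, Set.Ico ((z : ℝ) * s) ((z + 1) * s)) =
        ∑ z ∈ Zs, volume (Set.Ico ((z : ℝ) * s) ((z + 1) * s)) :=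
      measure_biUnion_finset hdisj fun z _ => measurableSet_Ico
    have h2 : ∑ z ∈ Zs, volume (Set.Ico ((z : ℝ) * s) ((z + 1) * s)) =
        ENNReal.ofReal ((Zs.card : ℝ) * s) := by
      have h3 : ∀ z ∈ Zs, volume (Set.Ico ((z : ℝ) * s) ((z + 1) * s)) = ENNReal.ofReal s := by
        intro z _
        rw [Real.volume_Ico]
        congr 1
        ring
      rw [Finset.sum_congr rfl h3, Finset.sum_const, nsmul_eq_mul,
        ENNReal.ofReal_mul (p := (Zs.card : ℝ)) (Nat.cast_nonneg _), ENNReal.ofReal_natCast]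
    have h4 : ENNReal.ofReal ((Zs.card : ℝ) * s) ≤ ENNReal.ofReal V := by
      rw [← h2, ← h1]
      exact (measure_mono (Set.iUnion₂_subset hcell)).trans hV
    exact (ENNReal.ofReal_le_ofReal_iff hV0).mp h4
  -- the polynomials
  refine ⟨Zs.biUnion fun z => (box (n + 1) (H : ℤ)).filter fun a => |ev a (Y z)| ≤ 2 * Lam, ?_, ?_⟩
  · intro a ha y hy hev hb1 hb2
    have hQy : Q y := ⟨hy, hb1, hb2⟩
    rw [Finset.mem_biUnion]
    refine ⟨⌊y / s⌋, hmem y hQy, ?_⟩
    rw [Finset.mem_filter]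
    refine ⟨mem_box ha, ?_⟩
    have h1 := hclose (Y ⌊y / s⌋) y (hYz _ (hmem y hQy))
    have h2 := hYQ _ (hmem y hQy)
    have h3 := ev_sub n (T + 1) H a ha (Y ⌊y / s⌋) y (by push_cast; linarith [h2.1])
      (by push_cast; linarith)
    have h4 : KK n (T + 1) * H * |Y ⌊y / s⌋ - y| ≤ lam := by
      rw [← hsKK]
      exact mul_le_mul_of_nonneg_left h1.le (by positivity)
    have h5 : ev a (Y ⌊y / s⌋) = (ev a (Y ⌊y / s⌋) - ev a y) + ev a y := by ring
    rw [h5]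
    refine (abs_add_le _ _).trans ?_
    linarith
  · have hone : ∀ z ∈ Zs, ((((box (n + 1) (H : ℤ)).filter fun a => |ev a (Y z)| ≤ 2 * Lam).card : ℕ) : ℝ) ≤
        64 * (2 * Lam) * (8 * (n + 1) * H) ^ n := by
      intro z hz
      refine good_count n H hH (Y z) (2 * Lam) (by linarith) _ ?_ ?_
      · intro a ha
        rw [Finset.mem_filter] at ha
        refine ⟨?_, ha.2⟩
        intro i
        have h1 := ha.1
        unfold Pool.Agent.Results.MP_c307ca_nt.AlmostAllToHeight.box at h1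
        rw [Fintype.mem_piFinset] at h1
        have h2 := h1 i
        rw [Finset.mem_Icc] at h2
        exact abs_le.mpr h2
      · intro hb
        apply (hYQ z hz).2.2
        refine hb.mono le_rfl ?_
        apply one_div_le_one_div_of_le (by linarith)
        linarith
    have h1 : (((Zs.biUnion fun z => (box (n + 1) (H : ℤ)).filter
        fun a => |ev a (Y z)| ≤ 2 * Lam).card : ℕ) : ℝ) ≤
        Zs.card * (64 * (2 * Lam) * (8 * (n + 1) * H) ^ n) := by
      have h2 : ((Zs.biUnion fun z => (box (n + 1) (H : ℤ)).filter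
        fun a => |ev a (Y z)| ≤ 2 * Lam).card : ℝ) ≤
        ∑ z ∈ Zs, ((((box (n + 1) (H : ℤ)).filter fun a => |ev a (Y z)| ≤ 2 * Lam).card : ℕ) : ℝ) := by
        exact_mod_cast Finset.card_biUnion_le
      refine h2.trans ((Finset.sum_le_sum hone).trans ?_)
      rw [Finset.sum_const, nsmul_eq_mul]
    refine h1.trans ?_
    have h3 : (Zs.card : ℝ) ≤ V / s := by
      rw [le_div_iff₀ hs0]
      exact hcardZ
    have hLam0 : 0 < Lam := by linarith
    calc (Zs.card : ℝ) * (64 * (2 * Lam) * (8 * (n + 1) * H) ^ n)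
        ≤ (V / s) * (64 * (2 * Lam) * (8 * (n + 1) * H) ^ n) :=
          mul_le_mul_of_nonneg_right h3 (by positivity)
      _ = 128 * KK n (T + 1) * (8 * (n + 1)) ^ n * (Lam / lam) * V * (H : ℝ) ^ (n + 1) := by
          rw [hs, mul_pow]
          field_simp
          ring

/-- all the steps -/
theorem chain (n T H J : ℕ) (hn : 1 ≤ n) (hH : 1 ≤ H) (θ V : ℝ) (hθ0 : 0 < θ) (hθ1 : θ ≤ 1)
    (hV0 : 0 ≤ V)
    (hV : volume {y ∈ ball (0 : ℝ) (T + 2) | Bad n (2 * r0 n H) (1 / (8 * (H * θ ^ J))) y} ≤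
      ENNReal.ofReal V) :
    ∃ B : Finset (Fin (n + 1) → ℤ),
      (∀ a : Fin (n + 1) → ℤ, (∀ i, |a i| ≤ (H : ℤ)) → ∀ y l : ℝ, |y| ≤ T + 1 → θ ^ J ≤ l →
        |ev a y| ≤ H * l → Bad n (r0 n H) (1 / (8 * (H * l))) y → a ∈ B) ∧
      (B.card : ℝ) ≤ J * (128 * KK n (T + 1) * (8 * (n + 1)) ^ n * θ⁻¹ * V * (H : ℝ) ^ (n + 1)) := by
  classical
  have hH0 : (0 : ℝ) < H := by exact_mod_cast hH
  have hstage : ∀ j ∈ range J, ∃ B : Finset (Fin (n + 1) → ℤ),
      (∀ a : Fin (n + 1) → ℤ, (∀ i, |a i| ≤ (H : ℤ)) → ∀ y : ℝ, |y| ≤ T + 1 →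
        |ev a y| ≤ H * θ ^ j → Bad n (r0 n H) (1 / (8 * (H * θ ^ (j + 1)))) y →
        ¬ Bad n (r0 n H) (1 / (8 * (H * θ ^ j))) y → a ∈ B) ∧
      (B.card : ℝ) ≤ 128 * KK n (T + 1) * (8 * (n + 1)) ^ n * θ⁻¹ * V * (H : ℝ) ^ (n + 1) := by
    intro j hj
    rw [Finset.mem_range] at hj
    have hθj : 0 < θ ^ j := by positivity
    have hθj1 : 0 < θ ^ (j + 1) := by positivity
    obtain ⟨B, hB1, hB2⟩ := stage n T H hn hH (H * θ ^ (j + 1)) (H * θ ^ j) V (by positivity)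
      (by
        apply mul_le_mul_of_nonneg_left _ hH0.le
        exact pow_le_pow_of_le_one hθ0.le hθ1 (Nat.le_succ j))
      (by
        have : θ ^ (j + 1) ≤ 1 := pow_le_one₀ hθ0.le hθ1
        nlinarith) hV0
      (by
        refine le_trans (measure_mono ?_) hV
        rintro y ⟨hy1, hy2⟩
        refine ⟨hy1, hy2.mono le_rfl ?_⟩
        apply one_div_le_one_div_of_le (by positivity)
        have : θ ^ J ≤ θ ^ (j + 1) := pow_le_pow_of_le_one hθ0.le hθ1 hj
        nlinarith)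
    refine ⟨B, hB1, hB2.trans (le_of_eq ?_)⟩
    have h1 : (H : ℝ) * θ ^ j / (H * θ ^ (j + 1)) = θ⁻¹ := by
      rw [pow_succ]
      field_simp
    rw [h1]
  choose! B hB1 hB2 using hstage
  refine ⟨(range J).biUnion B, ?_, ?_⟩
  · intro a ha y l hy hl hev hbad
    have hl0 : 0 < l := lt_of_lt_of_le (by positivity) hl
    have hJ : Bad n (r0 n H) (1 / (8 * (H * θ ^ J))) y := by
      refine hbad.mono le_rfl ?_
      apply one_div_le_one_div_of_le (by positivity)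
      nlinarith
    have hex : ∃ j, Bad n (r0 n H) (1 / (8 * (H * θ ^ j))) y := ⟨J, hJ⟩
    set j := Nat.find hex with hj
    have hj1 : Bad n (r0 n H) (1 / (8 * (H * θ ^ j))) y := Nat.find_spec hex
    have hjJ : j ≤ J := Nat.find_min' hex hJ
    have hj0 : j ≠ 0 := by
      intro h0
      rw [h0] at hj1
      have h1 := Bad.one_le (r0_lt n H hH) hj1
      rw [pow_zero, mul_one] at h1
      have h2 : (1 : ℝ) ≤ H := by exact_mod_cast hH
      have h3 : 1 / (8 * (H : ℝ)) < 1 := by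
        rw [div_lt_one (by positivity)]
        linarith
      linarith
    obtain ⟨i, hi⟩ : ∃ i, j = i + 1 := ⟨j - 1, by omega⟩
    have hnb : ¬ Bad n (r0 n H) (1 / (8 * (H * θ ^ i))) y := Nat.find_min hex (by omega)
    rw [Finset.mem_biUnion]
    refine ⟨i, Finset.mem_range.mpr (by omega), ?_⟩
    refine hB1 i (Finset.mem_range.mpr (by omega)) a ha y hy ?_ (by rw [← hi]; exact hj1) hnb
    refine hev.trans ?_
    apply mul_le_mul_of_nonneg_left _ hH0.le
    by_contra hcon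
    rw [not_le] at hcon
    apply hnb
    refine hbad.mono le_rfl ?_
    apply one_div_le_one_div_of_le (by positivity)
    nlinarith
  · have h1 : ((((range J).biUnion B).card : ℕ) : ℝ) ≤ ∑ j ∈ range J, ((B j).card : ℝ) := by
      exact_mod_cast Finset.card_biUnion_le
    refine h1.trans ((Finset.sum_le_sum hB2).trans ?_)
    rw [Finset.sum_const, Finset.card_range, nsmul_eq_mul]

end Pool.Agent.H15.LB
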