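import Pool.Agent.H15.LB.C

/-!
# The count for a family of points
-/

set_option autoImplicit false

namespace Pool.Agent.H15.LB

open Finset Filter MeasureTheory Metric
open Pool.Agent.Results.MP_c307ca_nt.AlmostAllToHeight (ev box mem_box KK KK_nonneg ev_sub)

/-- the polynomials which are small at one of the points of a family -/
theorem family (n T H J : ℕ) (hn : 1 ≤ n) (hH : 1 ≤ H) (θ V : ℝ) (hθ0 : 0 < θ) (hθ1 : θ ≤ 1)
    (hV0 : 0 ≤ V)
    (hV : volume {y ∈ ball (0 : ℝ) (T + 2) | Bad n (2 * r0 n H) (1 / (8 * (H * θ ^ J))) y} ≤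
      ENNReal.ofReal V) {ι : Type} (I : Finset ι) (y l : ι → ℝ) (hl : ∀ i ∈ I, θ ^ J ≤ l i) :
    ∃ B : Finset (Fin (n + 1) → ℤ),
      (∀ a : Fin (n + 1) → ℤ, (∀ i, |a i| ≤ (H : ℤ)) → ∀ i ∈ I, |y i| ≤ T + 1 →
        |ev a (y i)| ≤ H * l i → a ∈ B) ∧
      (B.card : ℝ) ≤ 64 * (8 * (n + 1)) ^ n * (H : ℝ) ^ (n + 1) * ∑ i ∈ I, l i +
        J * (128 * KK n (T + 1) * (8 * (n + 1)) ^ n * θ⁻¹ * V * (H : ℝ) ^ (n + 1)) := by
  classical
  have hH0 : (0 : ℝ) < H := by exact_mod_cast hH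
  obtain ⟨B0, hB1, hB2⟩ := chain n T H J hn hH θ V hθ0 hθ1 hV0 hV
  set G : ι → Finset (Fin (n + 1) → ℤ) := fun i =>
    if Bad n (r0 n H) (1 / (8 * (H * l i))) (y i) then ∅ else
      (box (n + 1) (H : ℤ)).filter fun a => |ev a (y i)| ≤ H * l i with hG
  have hGcard : ∀ i ∈ I, ((G i).card : ℝ) ≤ 64 * (8 * (n + 1)) ^ n * (H : ℝ) ^ (n + 1) * l i := by
    intro i hi
    have hli : 0 < l i := lt_of_lt_of_le (by positivity) (hl i hi)
    simp only [hG]
    split_ifs with hb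
    · simp only [Finset.card_empty, Nat.cast_zero]
      positivity
    · refine (good_count n H hH (y i) (H * l i) (by positivity) _ ?_ hb).trans (le_of_eq ?_)
      · intro a ha
        rw [Finset.mem_filter] at ha
        refine ⟨?_, ha.2⟩
        intro i
        have h1 := ha.1
        unfold Pool.Agent.Results.MP_c307ca_nt.AlmostAllToHeight.box at h1
        rw [Fintype.mem_piFinset] at h1
        have h2 := h1 i
        rw [Finset.mem_Icc] at h2
        exact abs_le.mpr h2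
      · rw [mul_pow]
        ring
  refine ⟨B0 ∪ I.biUnion G, ?_, ?_⟩
  · intro a ha i hi hy hev
    rw [Finset.mem_union]
    by_cases hb : Bad n (r0 n H) (1 / (8 * (H * l i))) (y i)
    · exact Or.inl (hB1 a ha (y i) (l i) hy (hl i hi) hev hb)
    · right
      rw [Finset.mem_biUnion]
      refine ⟨i, hi, ?_⟩
      simp only [hG]
      rw [if_neg hb, Finset.mem_filter]
      exact ⟨mem_box ha, hev⟩
  · have h1 : ((B0 ∪ I.biUnion G).card : ℝ) ≤ B0.card + ∑ i ∈ I, ((G i).card : ℝ) := by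
      have h2 : (B0 ∪ I.biUnion G).card ≤ B0.card + ∑ i ∈ I, (G i).card :=
        (Finset.card_union_le _ _).trans (Nat.add_le_add_left Finset.card_biUnion_le _)
      exact_mod_cast h2
    refine h1.trans ?_
    have h3 : ∑ i ∈ I, ((G i).card : ℝ) ≤
        64 * (8 * (n + 1)) ^ n * (H : ℝ) ^ (n + 1) * ∑ i ∈ I, l i := by
      rw [Finset.mul_sum]
      exact Finset.sum_le_sum hGcard
    linarith

/-- the count for roots in a bounded interval -/
theorem bounded_roots (n T H J : ℕ) (hn : 1 ≤ n) (hH : 1 ≤ H) (θ V : ℝ) (hθ0 : 0 < θ) (hθ1 : θ ≤ 1)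
    (hV0 : 0 ≤ V)
    (hV : volume {y ∈ ball (0 : ℝ) (T + 2) | Bad n (2 * r0 n H) (1 / (8 * (H * θ ^ J))) y} ≤
      ENNReal.ofReal V) (Q : ℕ) (ψ : ℕ → ℝ) (hψ : ∀ q, 0 ≤ ψ q) :
    ∃ B : Finset (Fin (n + 1) → ℤ),
      (∀ a : Fin (n + 1) → ℤ, (∀ i, |a i| ≤ (H : ℤ)) → ∀ ξ : ℝ, ev a ξ = 0 → |ξ| ≤ T →
        ∀ (p : ℤ) (q : ℕ), 1 ≤ q → q ≤ Q → |ξ - (p : ℝ) / q| ≤ ψ q / q → ψ q ≤ 1 → a ∈ B) ∧
      (B.card : ℝ) ≤ 64 * (8 * (n + 1)) ^ n * (H : ℝ) ^ (n + 1) *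
          ((2 * T + 3) * (KK n T * ∑ q ∈ Icc 1 Q, ψ q + θ ^ J * (Q : ℝ) ^ 2)) +
        J * (128 * KK n (T + 1) * (8 * (n + 1)) ^ n * θ⁻¹ * V * (H : ℝ) ^ (n + 1)) := by
  classical
  have hH0 : (0 : ℝ) < H := by exact_mod_cast hH
  have hT0 : (0 : ℝ) ≤ T := Nat.cast_nonneg T
  have hKK := KK_nonneg n T
  set l : ℕ → ℝ := fun q => KK n T * (ψ q / q) + θ ^ J with hl
  have hl' : ∀ q, θ ^ J ≤ l q := by
    intro q
    simp only [hl]
    have h1 : 0 ≤ KK n T * (ψ q / q) := mul_nonneg hKK (div_nonneg (hψ q) (Nat.cast_nonneg q))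
    linarith
  set I : Finset ((_ : ℕ) × ℤ) :=
    (Icc 1 Q).sigma (fun q => Icc (-((T + 1 : ℕ) * q : ℤ)) ((T + 1 : ℕ) * q)) with hI
  obtain ⟨B, hB1, hB2⟩ := family n T H J hn hH θ V hθ0 hθ1 hV0 hV I
    (fun i => (i.2 : ℝ) / i.1) (fun i => l i.1) (fun i _ => hl' i.1)
  refine ⟨B, ?_, ?_⟩
  · intro a ha ξ hξ0 hξT p q hq1 hqQ hle hψ1
    have hq0 : (0 : ℝ) < q := by exact_mod_cast hq1
    have hq1R : (1 : ℝ) ≤ q := by exact_mod_cast hq1
    have hψq : ψ q / q ≤ 1 := by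
      rw [div_le_one hq0]
      linarith
    have hy : |(p : ℝ) / q| ≤ T + 1 := by
      have h6 : (p : ℝ) / q = ξ - (ξ - (p : ℝ) / q) := by ring
      rw [h6]
      refine (abs_sub _ _).trans ?_
      linarith
    have hp : |(p : ℝ)| ≤ (T + 1) * q := by
      rw [abs_div, abs_of_pos hq0, div_le_iff₀ hq0] at hy
      exact hy
    refine hB1 a ha ⟨q, p⟩ ?_ hy ?_
    · rw [hI, Finset.mem_sigma, Finset.mem_Icc, Finset.mem_Icc]
      refine ⟨⟨hq1, hqQ⟩, ?_⟩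
      have h1 : |p| ≤ ((T + 1 : ℕ) * q : ℤ) := by
        have h2 : ((|p| : ℤ) : ℝ) ≤ (((T + 1 : ℕ) * q : ℤ) : ℝ) := by
          push_cast
          exact hp
        exact_mod_cast h2
      exact abs_le.mp h1
    · have h7 := ev_sub n T H a ha ((p : ℝ) / q) ξ hy (by linarith)
      rw [hξ0, sub_zero] at h7
      refine h7.trans ?_
      rw [abs_sub_comm] at hle
      have hθJ : 0 < θ ^ J := by positivity
      calc KK n T * H * |(p : ℝ) / q - ξ| ≤ KK n T * H * (ψ q / q) :=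
            mul_le_mul_of_nonneg_left hle (by positivity)
        _ ≤ H * l q := by
            simp only [hl]
            nlinarith
  · refine hB2.trans ?_
    have hsum : ∑ i ∈ I, l i.1 ≤
        (2 * T + 3) * (KK n T * ∑ q ∈ Icc 1 Q, ψ q + θ ^ J * (Q : ℝ) ^ 2) := by
      rw [hI, Finset.sum_sigma]
      have h1 : ∀ q ∈ Icc 1 Q, ∑ p ∈ Icc (-((T + 1 : ℕ) * q : ℤ)) ((T + 1 : ℕ) * q), l q ≤
          (2 * T + 3) * (KK n T * ψ q + θ ^ J * Q) := by
        intro q hq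
        rw [Finset.mem_Icc] at hq
        have hq0 : (0 : ℝ) < q := by exact_mod_cast hq.1
        have hq1R : (1 : ℝ) ≤ q := by exact_mod_cast hq.1
        have hqQ : (q : ℝ) ≤ Q := by exact_mod_cast hq.2
        rw [Finset.sum_const, Int.card_Icc, nsmul_eq_mul]
        have h2 : (((((T + 1 : ℕ) * q : ℤ) + 1 - -((T + 1 : ℕ) * q : ℤ)).toNat : ℕ) : ℝ) =
            2 * (T + 1) * q + 1 := by
          have h3 : (((((T + 1 : ℕ) * q : ℤ) + 1 - -((T + 1 : ℕ) * q : ℤ)).toNat : ℕ) : ℤ) =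
              2 * (T + 1) * q + 1 := by
            have h31 : (0 : ℤ) ≤ ((T + 1 : ℕ) * q : ℤ) := by positivity
            rw [Int.toNat_of_nonneg (by linarith)]
            push_cast
            ring
          exact_mod_cast h3
        rw [h2]
        have h4 : (2 * (T + 1) * q + 1 : ℝ) ≤ (2 * T + 3) * q := by nlinarith
        have hlq0 : 0 ≤ l q := le_trans (by positivity) (hl' q)
        have hθJ : 0 < θ ^ J := by positivity
        calc (2 * (T + 1) * q + 1 : ℝ) * l q ≤ ((2 * T + 3) * q) * l q :=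
              mul_le_mul_of_nonneg_right h4 hlq0
          _ = (2 * T + 3) * (KK n T * ψ q + θ ^ J * q) := by
              simp only [hl]
              field_simp
          _ ≤ (2 * T + 3) * (KK n T * ψ q + θ ^ J * Q) := by
              apply mul_le_mul_of_nonneg_left _ (by positivity)
              nlinarith
      refine (Finset.sum_le_sum h1).trans ?_
      rw [← Finset.mul_sum, Finset.sum_add_distrib, ← Finset.mul_sum, Finset.sum_const,
        Nat.card_Icc, nsmul_eq_mul]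
      apply mul_le_mul_of_nonneg_left _ (by positivity)
      apply le_of_eq
      rw [Nat.add_sub_cancel]
      ring
    have h5 : 64 * (8 * (n + 1)) ^ n * (H : ℝ) ^ (n + 1) * ∑ i ∈ I, l i.1 ≤
        64 * (8 * (n + 1)) ^ n * (H : ℝ) ^ (n + 1) *
          ((2 * T + 3) * (KK n T * ∑ q ∈ Icc 1 Q, ψ q + θ ^ J * (Q : ℝ) ^ 2)) :=
      mul_le_mul_of_nonneg_left hsum (by positivity)
    linarith

/-- the reversed polynomial at the inverse point -/
theorem ev_rev (n : ℕ) (a : Fin (n + 1) → ℤ) (ξ : ℝ) (hξ : ξ ≠ 0) :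
    ev (fun i => a (Fin.rev i)) ξ⁻¹ * ξ ^ n = ev a ξ := by
  unfold Pool.Agent.Results.MP_c307ca_nt.AlmostAllToHeight.ev
  rw [Finset.sum_mul]
  rw [← Equiv.sum_comp Fin.revPerm (fun i : Fin (n + 1) => (a i : ℝ) * ξ ^ (i : ℕ))]
  refine Finset.sum_congr rfl fun i _ => ?_
  rw [Fin.revPerm_apply, Fin.val_rev]
  have hi : (i : ℕ) ≤ n := Nat.lt_succ_iff.mp i.2
  have h1 : ξ ^ n = ξ ^ (n + 1 - ((i : ℕ) + 1)) * ξ ^ (i : ℕ) := by
    rw [← pow_add]
    congr 1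
    omega
  rw [h1, inv_pow]
  field_simp

/-- the count for large roots -/
theorem large_roots (n T H J : ℕ) (hn : 1 ≤ n) (hT : 1 ≤ T) (hH : 1 ≤ H) (θ V : ℝ) (hθ0 : 0 < θ)
    (hθ1 : θ ≤ 1) (hV0 : 0 ≤ V)
    (hV : volume {y ∈ ball (0 : ℝ) (T + 2) | Bad n (2 * r0 n H) (1 / (8 * (H * θ ^ J))) y} ≤
      ENNReal.ofReal V) (Q X : ℕ) (ψ : ℕ → ℝ) (hψ : ∀ q, 0 ≤ ψ q) :
    ∃ B : Finset (Fin (n + 1) → ℤ),
      (∀ a : Fin (n + 1) → ℤ, (∀ i, |a i| ≤ (H : ℤ)) → ∀ ξ : ℝ, ev a ξ = 0 → 1 < |ξ| → |ξ| ≤ X →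
        ∀ (p : ℤ) (q : ℕ), 1 ≤ q → q ≤ Q → |ξ - (p : ℝ) / q| ≤ ψ q / q → ψ q ≤ 1 / 2 → a ∈ B) ∧
      (B.card : ℝ) ≤ 64 * (8 * (n + 1)) ^ n * (H : ℝ) ^ (n + 1) *
          (2 * (6 * KK n T * ∑ q ∈ Icc 1 Q, ψ q + 2 * X * (θ ^ J * (Q : ℝ) ^ 2))) +
        J * (128 * KK n (T + 1) * (8 * (n + 1)) ^ n * θ⁻¹ * V * (H : ℝ) ^ (n + 1)) := by
  classical
  have hH0 : (0 : ℝ) < H := by exact_mod_cast hH
  have hT1 : (1 : ℝ) ≤ T := by exact_mod_cast hT
  have hKK := KK_nonneg n T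
  set l : (((_ : ℕ) × ℕ) × ℤ) → ℝ := fun i =>
    KK n T * (3 / 2 * (i.1.1 * ψ i.1.1 * ((i.1.2 : ℝ) ^ 2)⁻¹)) + θ ^ J with hl
  have hl' : ∀ i, θ ^ J ≤ l i := by
    intro i
    simp only [hl]
    have h1 : 0 ≤ KK n T * (3 / 2 * (i.1.1 * ψ i.1.1 * ((i.1.2 : ℝ) ^ 2)⁻¹)) := by
      have := hψ i.1.1
      positivity
    linarith
  set I : Finset (((_ : ℕ) × ℕ) × ℤ) :=
    ((Icc 1 Q).sigma (fun q => Ioo (q / 2) (2 * X * Q + 1))) ×ˢ ({1, -1} : Finset ℤ) with hI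
  obtain ⟨B, hB1, hB2⟩ := family n T H J hn hH θ V hθ0 hθ1 hV0 hV I
    (fun i => (i.2 : ℝ) * ((i.1.1 : ℝ) / i.1.2)) l (fun i _ => hl' i)
  refine ⟨B.image (fun a i => a (Fin.rev i)), ?_, ?_⟩
  · intro a ha ξ hξ0 hξ1 hξX p q hq1 hqQ hle hψ2
    rw [Finset.mem_image]
    refine ⟨fun i => a (Fin.rev i), ?_, by funext i; simp⟩
    have hq0 : (0 : ℝ) < q := by exact_mod_cast hq1
    have hq1R : (1 : ℝ) ≤ q := by exact_mod_cast hq1
    have hqQR : (q : ℝ) ≤ Q := by exact_mod_cast hqQ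
    have hξ0' : 0 < |ξ| := by linarith
    have hξne : ξ ≠ 0 := abs_pos.mp hξ0'
    have hψq : ψ q / q ≤ 1 / 2 := by
      rw [div_le_iff₀ hq0]
      linarith
    have hpq1 : |ξ| / 2 ≤ |(p : ℝ) / q| := by
      have h1 : |ξ| ≤ |ξ - (p : ℝ) / q| + |(p : ℝ) / q| := by
        have h2 : ξ = (ξ - (p : ℝ) / q) + (p : ℝ) / q := by ring
        calc |ξ| = |(ξ - (p : ℝ) / q) + (p : ℝ) / q| := by rw [← h2]
          _ ≤ _ := abs_add_le _ _
      linarith
    have hpq2 : |(p : ℝ) / q| ≤ 3 / 2 * |ξ| := by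
      have h6 : (p : ℝ) / q = ξ - (ξ - (p : ℝ) / q) := by ring
      rw [h6]
      refine (abs_sub _ _).trans ?_
      linarith
    rw [abs_div, abs_of_pos hq0] at hpq1 hpq2
    rw [le_div_iff₀ hq0] at hpq1
    rw [div_le_iff₀ hq0] at hpq2
    have hp0 : 0 < |(p : ℝ)| := by nlinarith
    have hpne : (p : ℝ) ≠ 0 := abs_pos.mp hp0
    have hpneZ : p ≠ 0 := by exact_mod_cast hpne
    have hnat : ((p.natAbs : ℕ) : ℝ) = |(p : ℝ)| := by
      rw [Nat.cast_natAbs, Int.cast_abs]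
    have hsign : (p.sign : ℝ) * |(p : ℝ)| = p := by
      have h1 : p.sign * |p| = p := Int.sign_mul_abs p
      have h2 : ((p.sign * |p| : ℤ) : ℝ) = p := by rw [h1]
      push_cast at h2
      exact h2
    have hsign2 : (p.sign : ℝ) * (p.sign : ℝ) = 1 := by
      have h1 : p.sign * p.sign = 1 := by
        rcases lt_or_gt_of_ne hpneZ with h | h
        · rw [Int.sign_eq_neg_one_of_neg h]; norm_num
        · rw [Int.sign_eq_one_of_pos h]; norm_num
      exact_mod_cast h1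
    have hyeq : (p.sign : ℝ) * ((q : ℝ) / (p.natAbs : ℕ)) = (q : ℝ) / p := by
      rw [hnat]
      rw [eq_div_iff hpne]
      calc (p.sign : ℝ) * (q / |(p : ℝ)|) * p = (p.sign : ℝ) * (q / |(p : ℝ)|) *
            ((p.sign : ℝ) * |(p : ℝ)|) := by rw [hsign]
        _ = ((p.sign : ℝ) * (p.sign : ℝ)) * (q / |(p : ℝ)| * |(p : ℝ)|) := by ring
        _ = q := by rw [hsign2, one_mul, div_mul_cancel₀ _ hp0.ne']
    have hy2 : |(q : ℝ) / p| ≤ 2 := by
      rw [abs_div, abs_of_pos hq0, div_le_iff₀ hp0]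
      nlinarith
    have hξinv : |ξ⁻¹| ≤ 1 := by
      rw [abs_inv]
      exact inv_le_one_of_one_le₀ hξ1.le
    have hroot : ev (fun i => a (Fin.rev i)) ξ⁻¹ = 0 := by
      have h1 := ev_rev n a ξ hξne
      rw [hξ0] at h1
      exact (mul_eq_zero.mp h1).resolve_right (pow_ne_zero n hξne)
    have hmem : (⟨⟨q, p.natAbs⟩, p.sign⟩ : ((_ : ℕ) × ℕ) × ℤ) ∈ I := by
      rw [hI, Finset.mem_product, Finset.mem_sigma, Finset.mem_Icc, Finset.mem_Ioo]
      refine ⟨⟨⟨hq1, hqQ⟩, ?_, ?_⟩, ?_⟩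
      · have h1 : (q : ℝ) < ((p.natAbs : ℕ) : ℝ) * 2 := by
          rw [hnat]
          nlinarith
        have h2 : q < p.natAbs * 2 := by exact_mod_cast h1
        exact (Nat.div_lt_iff_lt_mul (by norm_num)).mpr h2
      · have h1 : ((p.natAbs : ℕ) : ℝ) ≤ ((2 * X * Q : ℕ) : ℝ) := by
          rw [hnat]
          push_cast
          have h3 : 3 / 2 * |ξ| * q ≤ 3 / 2 * X * Q := by
            apply mul_le_mul _ hqQR hq0.le (by positivity)
            linarith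
          have h4 : (0 : ℝ) ≤ X * Q := by positivity
          linarith
        have h2 : p.natAbs ≤ 2 * X * Q := by exact_mod_cast h1
        exact Nat.lt_succ_of_le h2
      · rw [Finset.mem_insert, Finset.mem_singleton]
        rcases lt_or_gt_of_ne hpneZ with h | h
        · right; exact Int.sign_eq_neg_one_of_neg h
        · left; exact Int.sign_eq_one_of_pos h
    refine hB1 (fun i => a (Fin.rev i)) (fun i => ha _) _ hmem ?_ ?_
    · simp only
      rw [hyeq]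
      linarith
    · simp only
      rw [hyeq]
      have h7 := ev_sub n T H (fun i => a (Fin.rev i)) (fun i => ha _) ((q : ℝ) / p) ξ⁻¹
        (by linarith) (by linarith)
      rw [hroot, sub_zero] at h7
      refine h7.trans ?_
      have h8 : |(q : ℝ) / p - ξ⁻¹| ≤ 3 / 2 * (q * ψ q * (((p.natAbs : ℕ) : ℝ) ^ 2)⁻¹) := by
        have h9 : (q : ℝ) / p - ξ⁻¹ = (ξ - (p : ℝ) / q) * (q / (p * ξ)) := by
          field_simp
        rw [h9, abs_mul, abs_div, abs_mul, abs_of_pos hq0, hnat]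
        have h10 : (q : ℝ) / (|(p : ℝ)| * |ξ|) ≤ 3 / 2 * (q ^ 2 * (|(p : ℝ)| ^ 2)⁻¹) := by
          rw [div_le_iff₀ (by positivity)]
          have h11 : 3 / 2 * (q ^ 2 * (|(p : ℝ)| ^ 2)⁻¹) * (|(p : ℝ)| * |ξ|) =
              q * ((3 / 2 * |ξ| * q) / |(p : ℝ)|) := by
            field_simp
          rw [h11]
          have h12 : 1 ≤ (3 / 2 * |ξ| * q) / |(p : ℝ)| := by
            rw [le_div_iff₀ hp0]
            linarith
          nlinarith
        calc |ξ - (p : ℝ) / q| * (q / (|(p : ℝ)| * |ξ|)) ≤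
              (ψ q / q) * (3 / 2 * (q ^ 2 * (|(p : ℝ)| ^ 2)⁻¹)) :=
              mul_le_mul hle h10 (by positivity) (div_nonneg (hψ q) hq0.le)
          _ = 3 / 2 * (q * ψ q * (|(p : ℝ)| ^ 2)⁻¹) := by
              field_simp
      have hθJ : 0 < θ ^ J := by positivity
      calc KK n T * H * |(q : ℝ) / p - ξ⁻¹| ≤
            KK n T * H * (3 / 2 * (q * ψ q * (((p.natAbs : ℕ) : ℝ) ^ 2)⁻¹)) :=
            mul_le_mul_of_nonneg_left h8 (by positivity)
        _ ≤ H * l ⟨⟨q, p.natAbs⟩, p.sign⟩ := by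
            simp only [hl]
            nlinarith
  · have h0 : (((B.image (fun a i => a (Fin.rev i))).card : ℕ) : ℝ) ≤ B.card := by
      exact_mod_cast Finset.card_image_le
    refine h0.trans (hB2.trans ?_)
    have hsum : ∑ i ∈ I, l i ≤
        2 * (6 * KK n T * ∑ q ∈ Icc 1 Q, ψ q + 2 * X * (θ ^ J * (Q : ℝ) ^ 2)) := by
      have hθJ : 0 < θ ^ J := by positivity
      rw [hI, Finset.sum_product]
      have h1 : ∀ i ∈ (Icc 1 Q).sigma (fun q => Ioo (q / 2) (2 * X * Q + 1)),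
          ∑ s ∈ ({1, -1} : Finset ℤ), l (i, s) = 2 * l (i, 1) := by
        intro i _
        rw [Finset.sum_pair (by norm_num)]
        simp only [hl]
        ring
      rw [Finset.sum_congr rfl h1, ← Finset.mul_sum, Finset.sum_sigma]
      apply mul_le_mul_of_nonneg_left _ (by norm_num)
      have h2 : ∀ q ∈ Icc 1 Q, ∑ m ∈ Ioo (q / 2) (2 * X * Q + 1), l (⟨q, m⟩, 1) ≤
          6 * KK n T * ψ q + 2 * X * (θ ^ J * Q) := by
        intro q hq
        rw [Finset.mem_Icc] at hq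
        have hq0 : (0 : ℝ) < q := by exact_mod_cast hq.1
        simp only [hl]
        rw [Finset.sum_add_distrib, Finset.sum_const, ← Finset.mul_sum, ← Finset.mul_sum,
          ← Finset.mul_sum, nsmul_eq_mul]
        have h3 : ∑ m ∈ Ioo (q / 2) (2 * X * Q + 1), ((m : ℝ) ^ 2)⁻¹ ≤ 4 / q := by
          refine (sum_Ioo_inv_sq_le (q / 2) (2 * X * Q + 1)).trans ?_
          rw [div_le_div_iff₀ (by positivity) hq0]
          have h4 : q ≤ 2 * (q / 2) + 2 := by omega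
          have h5 : (q : ℝ) ≤ 2 * ((q / 2 : ℕ) : ℝ) + 2 := by exact_mod_cast h4
          linarith
        have h6 : (((Ioo (q / 2) (2 * X * Q + 1)).card : ℕ) : ℝ) ≤ 2 * X * Q := by
          rw [Nat.card_Ioo]
          have h7 : 2 * X * Q + 1 - q / 2 - 1 ≤ 2 * X * Q := by omega
          exact_mod_cast h7
        have h8 : KK n T * (3 / 2 * (q * ψ q * ∑ m ∈ Ioo (q / 2) (2 * X * Q + 1), ((m : ℝ) ^ 2)⁻¹)) ≤
            6 * KK n T * ψ q := by
          have h9 : q * ψ q * ∑ m ∈ Ioo (q / 2) (2 * X * Q + 1), ((m : ℝ) ^ 2)⁻¹ ≤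
              q * ψ q * (4 / q) := mul_le_mul_of_nonneg_left h3 (mul_nonneg hq0.le (hψ q))
          have h10 : (q : ℝ) * ψ q * (4 / q) = 4 * ψ q := by field_simp
          rw [h10] at h9
          calc KK n T * (3 / 2 * (q * ψ q * ∑ m ∈ Ioo (q / 2) (2 * X * Q + 1), ((m : ℝ) ^ 2)⁻¹))
              ≤ KK n T * (3 / 2 * (4 * ψ q)) := by
                apply mul_le_mul_of_nonneg_left _ hKK
                linarith
            _ = 6 * KK n T * ψ q := by ring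
        have h11 : (((Ioo (q / 2) (2 * X * Q + 1)).card : ℕ) : ℝ) * θ ^ J ≤
            2 * X * (θ ^ J * Q) := by
          calc (((Ioo (q / 2) (2 * X * Q + 1)).card : ℕ) : ℝ) * θ ^ J ≤ (2 * X * Q) * θ ^ J :=
                mul_le_mul_of_nonneg_right h6 hθJ.le
            _ = _ := by ring
        linarith
      refine (Finset.sum_le_sum h2).trans ?_
      rw [Finset.sum_add_distrib, ← Finset.mul_sum, Finset.sum_const, Nat.card_Icc, nsmul_eq_mul,
        Nat.add_sub_cancel]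
      apply le_of_eq
      ring
    have h5 : 64 * (8 * (n + 1)) ^ n * (H : ℝ) ^ (n + 1) * ∑ i ∈ I, l i ≤
        64 * (8 * (n + 1)) ^ n * (H : ℝ) ^ (n + 1) *
          (2 * (6 * KK n T * ∑ q ∈ Icc 1 Q, ψ q + 2 * X * (θ ^ J * (Q : ℝ) ^ 2))) :=
      mul_le_mul_of_nonneg_left hsum (by positivity)
    linarith

end Pool.Agent.H15.LB
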