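import Pool.Agent.H15.LB.D

/-!
# The count of the coefficient vectors
-/

set_option autoImplicit false

namespace Pool.Agent.H15.LB

open Finset Filter MeasureTheory Metric
open Pool.Agent.Results.MP_c307ca_nt.AlmostAllToHeight (ev box mem_box KK KK_nonneg ev_sub
  lead_small LR card_LR)

/-- the count of the polynomials with a root close to a rational number -/
theorem coeff_count (n : ℕ) (hn : 2 ≤ n) (κ : ℝ) (h1κ : 1 ≤ κ) (hκ : κ < ((n : ℝ) + 1) / 2) :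
    ∃ σ : ℝ, 0 < σ ∧ ∃ C : ℝ, 0 < C ∧ ∀ᶠ H : ℕ in atTop, ∀ ψ : ℕ → ℝ, (∀ q, 0 ≤ ψ q) →
      (∀ q : ℕ, 1 ≤ q → (q : ℝ) ≤ (H : ℝ) ^ κ → ψ q ≤ 1 / 2) →
      ∀ BB : Finset (Fin (n + 1) → ℤ),
      (∀ a ∈ BB, (∀ i, |a i| ≤ (H : ℤ)) ∧ a (Fin.last n) ≠ 0 ∧
        ∃ ξ : ℝ, ev a ξ = 0 ∧ ∃ (p : ℤ) (q : ℕ), 1 ≤ q ∧ (q : ℝ) ≤ (H : ℝ) ^ κ ∧
          |ξ - (p : ℝ) / q| ≤ ψ q / q) →
      (BB.card : ℝ) ≤ C * (H : ℝ) ^ (n + 1) *
        (∑ q ∈ Icc 1 ⌊(H : ℝ) ^ κ⌋₊, ψ q + (H : ℝ) ^ (-σ)) := by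
  classical
  have hn1 : 1 ≤ n := by omega
  have hn0 : (0 : ℝ) < n := by exact_mod_cast hn1
  set g0 : ℝ := n + 1 - 2 * κ with hg0
  have hg0pos : 0 < g0 := by
    rw [hg0]
    linarith
  obtain ⟨σ1, hσ1, hbad⟩ := bad_measure n hn1 ((n : ℝ) + 2) (by linarith) (g0 / 2) (by linarith)
  set c : ℝ := min (σ1 / 2) (g0 / 8) with hc
  have hc0 : 0 < c := lt_min (by linarith) (by linarith)
  have hc1 : c ≤ σ1 / 2 := min_le_left _ _
  have hc2 : c ≤ g0 / 8 := min_le_right _ _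
  set J : ℕ := ⌈(2 * κ + g0 / 4) / c⌉₊ with hJ
  have hcJ1 : 2 * κ + g0 / 4 ≤ c * J := by
    have h1 := Nat.le_ceil ((2 * κ + g0 / 4) / c)
    rw [div_le_iff₀ hc0] at h1
    rw [hJ]
    linarith
  have hcJ2 : c * J ≤ 2 * κ + 3 * g0 / 8 := by
    have h1 := Nat.ceil_lt_add_one (a := (2 * κ + g0 / 4) / c) (by positivity)
    rw [← hJ] at h1
    have h2 : c * J < c * ((2 * κ + g0 / 4) / c + 1) := mul_lt_mul_of_pos_left h1 hc0
    have h3 : c * ((2 * κ + g0 / 4) / c + 1) = 2 * κ + g0 / 4 + c := by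
      field_simp
    linarith
  set τ : ℝ := g0 / 16 with hτ
  have hτ0 : 0 < τ := by positivity
  set σ : ℝ := min τ (σ1 / 2) with hσ
  have hσ0 : 0 < σ := lt_min hτ0 (by linarith)
  have hστ : σ ≤ τ := min_le_left _ _
  have hσσ1 : σ ≤ σ1 / 2 := min_le_right _ _
  set K1 : ℝ := 64 * (8 * (n + 1)) ^ n with hK1
  have hK10 : 0 < K1 := by positivity
  set K2 : ℝ := 128 * KK n (n + 1) * (8 * (n + 1)) ^ n with hK2
  have hKK2 := KK_nonneg n (n + 1)
  have hK20 : 0 ≤ K2 := by positivity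
  set K3 : ℝ := KK n n with hK3
  have hK30 : 0 ≤ K3 := KK_nonneg n n
  set CA : ℝ := K1 * (2 * n + 3) * K3 + 12 * K1 * K3 with hCA
  set CB : ℝ := K1 * (2 * n + 3) + 12 * K1 + 2 * (J * K2) + 2 * 3 ^ n with hCB
  have hCA0 : 0 ≤ CA := by positivity
  have hCB0 : 0 < CB := by positivity
  refine ⟨σ, hσ0, CA + CB, by positivity, ?_⟩
  filter_upwards [hbad, eventually_ge_atTop 1] with H hbadH hH
  intro ψ hψ0 hψ2 BB hBB
  have hH0 : (0 : ℝ) < H := by exact_mod_cast hH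
  have hH1 : (1 : ℝ) ≤ H := by exact_mod_cast hH
  set θ : ℝ := (H : ℝ) ^ (-c) with hθ
  have hθ0 : 0 < θ := by positivity
  have hθ1 : θ ≤ 1 := Real.rpow_le_one_of_one_le_of_nonpos hH1 (by linarith)
  have hθJ : θ ^ J = (H : ℝ) ^ (-(c * J)) := by
    rw [hθ, ← Real.rpow_natCast, ← Real.rpow_mul hH0.le]
    congr 1
    ring
  set V : ℝ := (H : ℝ) ^ (-σ1) with hV
  have hV0 : 0 ≤ V := by positivity
  have hvol : volume {y ∈ ball (0 : ℝ) (((n : ℕ) : ℝ) + 2) |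
      Bad n (2 * r0 n H) (1 / (8 * (H * θ ^ J))) y} ≤ ENNReal.ofReal V := by
    refine le_trans (measure_mono ?_) hbadH
    rintro y ⟨hy1, hy2⟩
    refine ⟨hy1, hy2.mono ?_ ?_⟩
    · unfold r0
      rw [mul_one_div, div_le_div_iff₀ (by positivity) hH0]
      have hnH : 0 ≤ (n : ℝ) * H := by positivity
      nlinarith only [hnH, hH0]
    · rw [hθJ]
      have h1 : 1 / (8 * (H * (H : ℝ) ^ (-(c * J)))) = (1 / 8) * (H : ℝ) ^ (c * J - 1) := by
        rw [Real.rpow_sub hH0, Real.rpow_neg hH0.le, Real.rpow_one]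
        field_simp
      rw [h1]
      have h2 : (H : ℝ) ^ (c * J - 1) ≤ (H : ℝ) ^ ((n : ℝ) - g0 / 2) := by
        apply Real.rpow_le_rpow_of_exponent_le hH1
        rw [hg0] at hcJ2 ⊢
        linarith
      have h3 : 0 < (H : ℝ) ^ (c * J - 1) := by positivity
      linarith
  set Q : ℕ := ⌊(H : ℝ) ^ κ⌋₊ with hQ
  have hQκ : (Q : ℝ) ≤ (H : ℝ) ^ κ := Nat.floor_le (by positivity)
  set X : ℕ := ⌈(H : ℝ) ^ τ⌉₊ + 1 with hX
  have hHτ : 1 ≤ (H : ℝ) ^ τ := Real.one_le_rpow hH1 hτ0.le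
  have hX1 : (H : ℝ) ^ τ ≤ (X : ℝ) - 1 := by
    rw [hX]
    push_cast
    have := Nat.le_ceil ((H : ℝ) ^ τ)
    linarith
  have hX2 : (X : ℝ) ≤ 3 * (H : ℝ) ^ τ := by
    have h1 := Nat.ceil_lt_add_one (a := (H : ℝ) ^ τ) (by positivity)
    rw [hX]
    push_cast
    linarith
  have hX2N : 2 ≤ X := by
    have h1 : (2 : ℝ) ≤ X := by linarith
    exact_mod_cast h1
  obtain ⟨B1, hB11, hB12⟩ := bounded_roots n n H J hn1 hH θ V hθ0 hθ1 hV0 hvol Q ψ hψ0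
  obtain ⟨B2, hB21, hB22⟩ := large_roots n n H J hn1 hn1 hH θ V hθ0 hθ1 hV0 hvol Q X ψ hψ0
  have hsub : BB ⊆ LR n X H ∪ (B1 ∪ B2) := by
    intro a ha
    obtain ⟨ha1, ha2, ξ, hξ0, p, q, hq1, hqκ, hle⟩ := hBB a ha
    have hqQ : q ≤ Q := Nat.le_floor hqκ
    have hψq := hψ2 q hq1 hqκ
    rw [Finset.mem_union, Finset.mem_union]
    by_cases hξ : (X : ℝ) < |ξ|
    · left
      unfold Pool.Agent.Results.MP_c307ca_nt.AlmostAllToHeight.LR
      rw [Finset.mem_filter]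
      exact ⟨mem_box ha1, ha2, lead_small n X H hX2N a ha1 ξ hξ0 hξ⟩
    · rw [not_lt] at hξ
      right
      by_cases hξ1 : 1 < |ξ|
      · right
        exact hB21 a ha1 ξ hξ0 hξ1 hξ p q hq1 hqQ hle hψq
      · left
        rw [not_lt] at hξ1
        exact hB11 a ha1 ξ hξ0 (hξ1.trans (by exact_mod_cast hn1)) p q hq1 hqQ hle (by linarith)
  have hcard : (BB.card : ℝ) ≤ ((LR n X H).card : ℝ) + (B1.card + B2.card) := by
    have h1 : BB.card ≤ (LR n X H).card + (B1.card + B2.card) :=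
      (Finset.card_le_card hsub).trans ((Finset.card_union_le _ _).trans
        (Nat.add_le_add_left (Finset.card_union_le _ _) _))
    exact_mod_cast h1
  have hLR := card_LR n X H hX2N hH
  set S : ℝ := ∑ q ∈ Icc 1 Q, ψ q with hS
  have hS0 : 0 ≤ S := Finset.sum_nonneg fun q _ => hψ0 q
  set P : ℝ := (H : ℝ) ^ (n + 1) with hP
  have hP0 : 0 < P := by positivity
  set E : ℝ := (H : ℝ) ^ (-σ) with hE
  have hE0 : 0 < E := by positivity
  have hQ2 : (Q : ℝ) ^ 2 ≤ (H : ℝ) ^ (2 * κ) := by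
    calc (Q : ℝ) ^ 2 ≤ ((H : ℝ) ^ κ) ^ 2 := pow_le_pow_left₀ (Nat.cast_nonneg _) hQκ 2
      _ = (H : ℝ) ^ (2 * κ) := by
        rw [← Real.rpow_natCast, ← Real.rpow_mul hH0.le]
        congr 1
        push_cast
        ring
  have hA1 : θ ^ J * (Q : ℝ) ^ 2 ≤ (H : ℝ) ^ (-(g0 / 4)) := by
    rw [hθJ]
    calc (H : ℝ) ^ (-(c * J)) * (Q : ℝ) ^ 2 ≤ (H : ℝ) ^ (-(c * J)) * (H : ℝ) ^ (2 * κ) :=
          mul_le_mul_of_nonneg_left hQ2 (by positivity)
      _ = (H : ℝ) ^ (-(c * J) + 2 * κ) := (Real.rpow_add hH0 _ _).symm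
      _ ≤ _ := Real.rpow_le_rpow_of_exponent_le hH1 (by linarith)
  have hA2 : θ ^ J * (Q : ℝ) ^ 2 ≤ E := by
    refine hA1.trans ?_
    exact Real.rpow_le_rpow_of_exponent_le hH1 (by linarith)
  have hA3 : X * (θ ^ J * (Q : ℝ) ^ 2) ≤ 3 * E := by
    calc X * (θ ^ J * (Q : ℝ) ^ 2) ≤ (3 * (H : ℝ) ^ τ) * (H : ℝ) ^ (-(g0 / 4)) :=
          mul_le_mul hX2 hA1 (by positivity) (by positivity)
      _ = 3 * (H : ℝ) ^ (τ + -(g0 / 4)) := by
          rw [Real.rpow_add hH0]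
          ring
      _ ≤ 3 * E := by
          apply mul_le_mul_of_nonneg_left _ (by norm_num)
          exact Real.rpow_le_rpow_of_exponent_le hH1 (by linarith)
  have hA4 : θ⁻¹ * V ≤ E := by
    rw [hθ, hV, ← Real.rpow_neg hH0.le, ← Real.rpow_add hH0]
    exact Real.rpow_le_rpow_of_exponent_le hH1 (by linarith)
  have hA5 : 1 / ((X : ℝ) - 1) ≤ E := by
    have h1 : 0 < (X : ℝ) - 1 := by linarith
    rw [div_le_iff₀ h1]
    have h2 : 1 ≤ E * (H : ℝ) ^ τ := by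
      rw [hE, ← Real.rpow_add hH0]
      exact Real.one_le_rpow hH1 (by linarith)
    exact h2.trans (mul_le_mul_of_nonneg_left hX1 hE0.le)
  have hb1 : (B1.card : ℝ) ≤ P * (K1 * (2 * n + 3) * K3 * S + K1 * (2 * n + 3) * E + J * K2 * E) := by
    refine hB12.trans ?_
    have h1 : 64 * (8 * ((n : ℝ) + 1)) ^ n * P * ((2 * n + 3) * (K3 * S + θ ^ J * (Q : ℝ) ^ 2)) ≤
        P * (K1 * (2 * n + 3) * K3 * S + K1 * (2 * n + 3) * E) := by
      have h2 : K1 * P * ((2 * n + 3) * (K3 * S + θ ^ J * (Q : ℝ) ^ 2)) ≤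
          K1 * P * ((2 * n + 3) * (K3 * S + E)) := by
        apply mul_le_mul_of_nonneg_left _ (by positivity)
        apply mul_le_mul_of_nonneg_left _ (by positivity)
        linarith
      refine h2.trans (le_of_eq ?_)
      ring
    have h3 : (J : ℝ) * (128 * KK n (n + 1) * (8 * (n + 1)) ^ n * θ⁻¹ * V * P) ≤
        P * (J * K2 * E) := by
      have h4 : (J : ℝ) * (128 * KK n (n + 1) * (8 * (n + 1)) ^ n * θ⁻¹ * V * P) =
          (J * K2 * P) * (θ⁻¹ * V) := by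
        rw [hK2]
        ring
      rw [h4]
      calc (J * K2 * P) * (θ⁻¹ * V) ≤ (J * K2 * P) * E :=
            mul_le_mul_of_nonneg_left hA4 (by positivity)
        _ = _ := by ring
    linarith
  have hb2 : (B2.card : ℝ) ≤ P * (12 * K1 * K3 * S + 12 * K1 * E + J * K2 * E) := by
    refine hB22.trans ?_
    have h1 : 64 * (8 * ((n : ℝ) + 1)) ^ n * P *
        (2 * (6 * K3 * S + 2 * X * (θ ^ J * (Q : ℝ) ^ 2))) ≤
        P * (12 * K1 * K3 * S + 12 * K1 * E) := by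
      have h2 : K1 * P * (2 * (6 * K3 * S + 2 * X * (θ ^ J * (Q : ℝ) ^ 2))) ≤
          K1 * P * (2 * (6 * K3 * S + 2 * (3 * E))) := by
        apply mul_le_mul_of_nonneg_left _ (by positivity)
        apply mul_le_mul_of_nonneg_left _ (by norm_num)
        have h5 : 2 * (X : ℝ) * (θ ^ J * (Q : ℝ) ^ 2) = 2 * (X * (θ ^ J * (Q : ℝ) ^ 2)) := by ring
        rw [h5]
        linarith
      refine h2.trans (le_of_eq ?_)
      ring
    have h3 : (J : ℝ) * (128 * KK n (n + 1) * (8 * (n + 1)) ^ n * θ⁻¹ * V * P) ≤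
        P * (J * K2 * E) := by
      have h4 : (J : ℝ) * (128 * KK n (n + 1) * (8 * (n + 1)) ^ n * θ⁻¹ * V * P) =
          (J * K2 * P) * (θ⁻¹ * V) := by
        rw [hK2]
        ring
      rw [h4]
      calc (J * K2 * P) * (θ⁻¹ * V) ≤ (J * K2 * P) * E :=
            mul_le_mul_of_nonneg_left hA4 (by positivity)
        _ = _ := by ring
    linarith
  have hb3 : ((LR n X H).card : ℝ) ≤ P * (2 * 3 ^ n * E) := by
    refine hLR.trans ?_
    apply mul_le_mul_of_nonneg_left _ hP0.le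
    have h1 : 2 * (3 : ℝ) ^ n / ((X : ℝ) - 1) = 2 * 3 ^ n * (1 / ((X : ℝ) - 1)) := by ring
    rw [h1]
    exact mul_le_mul_of_nonneg_left hA5 (by positivity)
  have hfin : (BB.card : ℝ) ≤ P * (CA * S + CB * E) := by
    refine hcard.trans ?_
    have h1 : P * (CA * S + CB * E) = P * (2 * 3 ^ n * E) +
        (P * (K1 * (2 * n + 3) * K3 * S + K1 * (2 * n + 3) * E + J * K2 * E) +
        P * (12 * K1 * K3 * S + 12 * K1 * E + J * K2 * E)) := by
      rw [hCA, hCB]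
      ring
    rw [h1]
    linarith
  refine hfin.trans ?_
  have h1 : CA * S + CB * E ≤ (CA + CB) * (S + E) := by
    have h2 : (CA + CB) * (S + E) = CA * S + CB * E + (CA * E + CB * S) := by ring
    have h3 : 0 ≤ CA * E + CB * S := by positivity
    rw [h2]
    exact le_add_of_nonneg_right h3
  calc P * (CA * S + CB * E) ≤ P * ((CA + CB) * (S + E)) := mul_le_mul_of_nonneg_left h1 hP0.le
    _ = (CA + CB) * P * (S + E) := by ring

end Pool.Agent.H15.LB
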