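import Pool.Agent.H15.LB.E
import Pool.Graph.R_seed8.Results.MP_c307ca_nt.AlmostAllBeyondHeight

/-!
# The count of the algebraic numbers
-/

set_option autoImplicit false

namespace Pool.Agent.H15.LB

open Finset Filter Polynomial
open Pool.Agent.Results.MP_c307ca_nt.AlmostAllToHeight (ev box mem_box card_box polZ polZ_coeff
  ev_eq_aeval w w_pos w_eq w_summable)

/-- `ξ` is an algebraic number of degree `d` and height at most `H` -/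
def Alg (d H : ℕ) (ξ : ℝ) : Prop :=
  ∃ P : ℤ[X], P.natDegree = d ∧ (∀ i, |P.coeff i| ≤ (H : ℤ)) ∧
    Irreducible (P.map (Int.castRingHom ℚ)) ∧ aeval ξ P = 0

theorem card_roots (d H : ℕ) (hd : 1 ≤ d) (S : Set ℝ) (hS : ∀ ξ ∈ S, Alg d H ξ)
    (BB : Finset (Fin (d + 1) → ℤ))
    (hBB : ∀ ξ ∈ S, ∀ a : Fin (d + 1) → ℤ, (∀ i, |a i| ≤ (H : ℤ)) → a (Fin.last d) ≠ 0 →
      ev a ξ = 0 → a ∈ BB) :
    S.Finite ∧ (S.ncard : ℝ) ≤ d * BB.card := by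
  classical
  set U : Finset ℝ := BB.biUnion (fun a => ((polZ a).map (Int.castRingHom ℝ)).roots.toFinset)
    with hU
  have hSU : S ⊆ (U : Set ℝ) := by
    intro ξ hξS
    obtain ⟨P, hPd, hPH, hPirr, hξ⟩ := hS ξ hξS
    have hP0 : P ≠ 0 := by
      intro h0
      rw [h0, Polynomial.natDegree_zero] at hPd
      omega
    rw [hU, Finset.mem_coe, Finset.mem_biUnion]
    refine ⟨fun i : Fin (d + 1) => P.coeff i, ?_, ?_⟩
    · refine hBB ξ hξS _ (fun i => hPH i) ?_ ?_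
      · have h2 : P.coeff d ≠ 0 := by
          rw [← hPd]
          exact Polynomial.leadingCoeff_ne_zero.mpr hP0
        simpa using h2
      · rw [ev_eq_aeval d P hPd]
        exact hξ
    · rw [polZ_coeff d P hPd, Multiset.mem_toFinset, Polynomial.mem_roots',
        Polynomial.IsRoot, Polynomial.eval_map]
      refine ⟨?_, hξ⟩
      rw [Polynomial.map_ne_zero_iff (RingHom.injective_int (Int.castRingHom ℝ))]
      exact hP0
  have hUcard : U.card ≤ BB.card * d := by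
    refine Finset.card_biUnion_le_card_mul _ _ _ fun a _ => ?_
    refine (Multiset.toFinset_card_le _).trans ((Polynomial.card_roots' _).trans ?_)
    refine Polynomial.natDegree_map_le.trans ?_
    unfold Pool.Agent.Results.MP_c307ca_nt.AlmostAllToHeight.polZ
    refine Polynomial.natDegree_sum_le_of_forall_le _ _ fun i _ => ?_
    exact (Polynomial.natDegree_C_mul_X_pow_le _ _).trans (Nat.lt_succ_iff.mp i.2)
  refine ⟨U.finite_toSet.subset hSU, ?_⟩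
  have h1 : S.ncard ≤ U.card := by
    rw [← Set.ncard_coe_finset]
    exact Set.ncard_le_ncard hSU U.finite_toSet
  have h2 : (S.ncard : ℝ) ≤ ((BB.card * d : ℕ) : ℝ) := by exact_mod_cast h1.trans hUcard
  refine h2.trans (le_of_eq ?_)
  push_cast
  ring

/-- the trivial bound -/
theorem card_all (d H : ℕ) (hd : 1 ≤ d) (hH : 1 ≤ H) (S : Set ℝ) (hS : ∀ ξ ∈ S, Alg d H ξ) :
    S.Finite ∧ (S.ncard : ℝ) ≤ d * 3 ^ (d + 1) * (H : ℝ) ^ (d + 1) := by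
  obtain ⟨h1, h2⟩ := card_roots d H hd S hS (box (d + 1) (H : ℤ)) (fun _ _ a ha _ _ => mem_box ha)
  refine ⟨h1, h2.trans ?_⟩
  rw [card_box, mul_assoc]
  apply mul_le_mul_of_nonneg_left _ (Nat.cast_nonneg d)
  rw [← mul_pow]
  push_cast
  have hH1 : (1 : ℝ) ≤ H := by exact_mod_cast hH
  exact pow_le_pow_left₀ (by positivity) (by linarith) _

/-- the exceptional numbers -/
def Exc (d H : ℕ) (κ : ℝ) (ψ : ℕ → ℝ) : Set ℝ :=
  {ξ : ℝ | Alg d H ξ ∧ ∃ (p : ℤ) (q : ℕ), 1 ≤ q ∧ (q : ℝ) ≤ (H : ℝ) ^ κ ∧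
    |ξ - (p : ℝ) / q| ≤ ψ q / q}

theorem main_aux (d : ℕ) (hd : 2 ≤ d) (κ : ℝ) (h1κ : 1 ≤ κ) (hκ : κ < ((d : ℝ) + 1) / 2) :
    ∃ σ : ℝ, 0 < σ ∧ ∃ C : ℝ, 0 < C ∧ ∀ ψ : ℕ → ℝ, (∀ q, 0 ≤ ψ q) → ∀ H : ℕ, 1 ≤ H →
      (Exc d H κ ψ).Finite ∧ ((Exc d H κ ψ).ncard : ℝ) ≤
        C * (H : ℝ) ^ (d + 1) * (∑ q ∈ Icc 1 ⌊(H : ℝ) ^ κ⌋₊, ψ q + (H : ℝ) ^ (-σ)) := by
  classical
  obtain ⟨σ, hσ, C, hC, hev⟩ := coeff_count d hd κ h1κ hκ
  obtain ⟨H0, hH0⟩ := eventually_atTop.mp hev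
  have hd0 : (0 : ℝ) < d := by exact_mod_cast (by omega : 0 < d)
  set C1 : ℝ := d * 3 ^ (d + 1) with hC1
  have hC10 : 0 < C1 := by positivity
  set H1 : ℝ := max (H0 : ℝ) 1 with hH1
  have hH11 : 1 ≤ H1 := le_max_right _ _
  refine ⟨σ, hσ, d * C + C1 * 2 + C1 * H1 ^ σ, by positivity, ?_⟩
  intro ψ hψ H hH
  have hHR : (1 : ℝ) ≤ H := by exact_mod_cast hH
  have hHR0 : (0 : ℝ) < H := by linarith
  have hall := card_all d H (by omega) hH (Exc d H κ ψ) (fun ξ hξ => hξ.1)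
  refine ⟨hall.1, ?_⟩
  set S : ℝ := ∑ q ∈ Icc 1 ⌊(H : ℝ) ^ κ⌋₊, ψ q with hS
  have hS0 : 0 ≤ S := Finset.sum_nonneg fun q _ => hψ q
  set E : ℝ := (H : ℝ) ^ (-σ) with hE
  have hE0 : 0 < E := by positivity
  set P : ℝ := (H : ℝ) ^ (d + 1) with hP
  have hP0 : 0 < P := by positivity
  have hH1σ : 0 < H1 ^ σ := by positivity
  by_cases hbig : ∃ q : ℕ, 1 ≤ q ∧ (q : ℝ) ≤ (H : ℝ) ^ κ ∧ 1 / 2 < ψ q
  · obtain ⟨q, hq1, hq2, hq3⟩ := hbig
    have h1 : 1 / 2 ≤ S := by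
      refine hq3.le.trans ?_
      exact Finset.single_le_sum (f := ψ) (fun i _ => hψ i)
        (Finset.mem_Icc.mpr ⟨hq1, Nat.le_floor hq2⟩)
    refine hall.2.trans ?_
    have h2 : C1 * P ≤ (C1 * 2) * P * S := by nlinarith [mul_pos hC10 hP0]
    have h3 : (C1 * 2) * P * S ≤ (d * C + C1 * 2 + C1 * H1 ^ σ) * P * (S + E) := by
      apply mul_le_mul _ (by linarith) hS0 (by positivity)
      apply mul_le_mul_of_nonneg_right _ hP0.le
      have : 0 ≤ C1 * H1 ^ σ := by positivity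
      have : 0 ≤ d * C := by positivity
      linarith
    exact h2.trans h3
  · push Not at hbig
    by_cases hHH : H0 ≤ H
    · set BB : Finset (Fin (d + 1) → ℤ) := (box (d + 1) (H : ℤ)).filter (fun a =>
        a (Fin.last d) ≠ 0 ∧
        ∃ ξ : ℝ, ev a ξ = 0 ∧ ∃ (p : ℤ) (q : ℕ), 1 ≤ q ∧ (q : ℝ) ≤ (H : ℝ) ^ κ ∧
          |ξ - (p : ℝ) / q| ≤ ψ q / q) with hBB
      have h1 := hH0 H hHH ψ hψ hbig BB (by
        intro a ha
        rw [hBB, Finset.mem_filter] at ha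
        refine ⟨?_, ha.2⟩
        intro i
        have h1 := ha.1
        unfold Pool.Agent.Results.MP_c307ca_nt.AlmostAllToHeight.box at h1
        rw [Fintype.mem_piFinset] at h1
        have h2 := h1 i
        rw [Finset.mem_Icc] at h2
        exact abs_le.mpr h2)
      obtain ⟨_, h2⟩ := card_roots d H (by omega) (Exc d H κ ψ) (fun ξ hξ => hξ.1) BB (by
        intro ξ hξ a ha1 ha2 ha3
        rw [hBB, Finset.mem_filter]
        exact ⟨mem_box ha1, ha2, ξ, ha3, hξ.2⟩)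
      refine h2.trans ?_
      have h3 : (d : ℝ) * BB.card ≤ (d * C) * P * (S + E) := by
        calc (d : ℝ) * BB.card ≤ d * (C * P * (S + E)) := mul_le_mul_of_nonneg_left h1 hd0.le
          _ = _ := by ring
      refine h3.trans ?_
      apply mul_le_mul_of_nonneg_right _ (by positivity)
      apply mul_le_mul_of_nonneg_right _ hP0.le
      have : 0 ≤ C1 * H1 ^ σ := by positivity
      linarith
    · push Not at hHH
      refine hall.2.trans ?_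
      have h1 : 1 ≤ H1 ^ σ * E := by
        have h2 : (H : ℝ) ^ σ ≤ H1 ^ σ := by
          apply Real.rpow_le_rpow hHR0.le _ hσ.le
          refine le_trans ?_ (le_max_left _ _)
          exact_mod_cast hHH.le
        have h3 : (H : ℝ) ^ σ * E = 1 := by
          rw [hE, ← Real.rpow_add hHR0]
          simp
        nlinarith
      calc C1 * P ≤ (C1 * H1 ^ σ) * P * E := by
            have h4 : C1 * P * 1 ≤ C1 * P * (H1 ^ σ * E) :=
              mul_le_mul_of_nonneg_left h1 (by positivity)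
            linarith
        _ ≤ (d * C + C1 * 2 + C1 * H1 ^ σ) * P * (S + E) := by
            apply mul_le_mul _ (by linarith) hE0.le (by positivity)
            apply mul_le_mul_of_nonneg_right _ hP0.le
            have : 0 ≤ d * C := by positivity
            linarith

/-- **The quantitative form.** -/
theorem main (d : ℕ) (hd : 2 ≤ d) (κ : ℝ) (hκ : κ < ((d : ℝ) + 1) / 2) :
    ∃ σ : ℝ, 0 < σ ∧ ∃ C : ℝ, 0 < C ∧ ∀ ψ : ℕ → ℝ, (∀ q, 0 ≤ ψ q) → ∀ H : ℕ, 1 ≤ H →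
      (Exc d H κ ψ).Finite ∧ ((Exc d H κ ψ).ncard : ℝ) ≤
        C * (H : ℝ) ^ (d + 1) * (∑ q ∈ Icc 1 ⌊(H : ℝ) ^ κ⌋₊, ψ q + (H : ℝ) ^ (-σ)) := by
  classical
  have hd2 : (2 : ℝ) ≤ d := by exact_mod_cast hd
  obtain ⟨σ, hσ, C, hC, h⟩ := main_aux d hd (max κ 1) (le_max_right _ _)
    (max_lt hκ (by linarith))
  refine ⟨σ, hσ, C, hC, ?_⟩
  intro ψ hψ H hH
  have hHR : (1 : ℝ) ≤ H := by exact_mod_cast hH
  set ψ' : ℕ → ℝ := fun q => if (q : ℝ) ≤ (H : ℝ) ^ κ then ψ q else 0 with hψ'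
  have hψ'0 : ∀ q, 0 ≤ ψ' q := by
    intro q
    simp only [hψ']
    split_ifs
    · exact hψ q
    · exact le_rfl
  obtain ⟨h1, h2⟩ := h ψ' hψ'0 H hH
  have hpow : (H : ℝ) ^ κ ≤ (H : ℝ) ^ (max κ 1) :=
    Real.rpow_le_rpow_of_exponent_le hHR (le_max_left _ _)
  have hsub : Exc d H κ ψ ⊆ Exc d H (max κ 1) ψ' := by
    rintro ξ ⟨hξ, p, q, hq1, hq2, hq3⟩
    refine ⟨hξ, p, q, hq1, hq2.trans hpow, ?_⟩
    simp only [hψ']
    rw [if_pos hq2]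
    exact hq3
  refine ⟨h1.subset hsub, ?_⟩
  have h3 : ((Exc d H κ ψ).ncard : ℝ) ≤ ((Exc d H (max κ 1) ψ').ncard : ℝ) := by
    exact_mod_cast Set.ncard_le_ncard hsub h1
  have h4 : ∑ q ∈ Icc 1 ⌊(H : ℝ) ^ (max κ 1)⌋₊, ψ' q = ∑ q ∈ Icc 1 ⌊(H : ℝ) ^ κ⌋₊, ψ q := by
    simp only [hψ']
    rw [← Finset.sum_filter]
    apply Finset.sum_congr _ fun _ _ => rfl
    ext q
    rw [Finset.mem_filter, Finset.mem_Icc, Finset.mem_Icc]
    have hpos : 0 ≤ (H : ℝ) ^ κ := by positivity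
    constructor
    · rintro ⟨⟨ha, _⟩, hb⟩
      exact ⟨ha, Nat.le_floor hb⟩
    · rintro ⟨ha, hb⟩
      have hb' : (q : ℝ) ≤ (H : ℝ) ^ κ := (Nat.le_floor_iff hpos).mp hb
      exact ⟨⟨ha, Nat.le_floor (hb'.trans hpow)⟩, hb'⟩
  rw [← h4]
  exact h3.trans h2

/-- **Lang's inequality.** -/
theorem lang (d : ℕ) (hd : 2 ≤ d) (κ : ℝ) (hκ : κ < ((d : ℝ) + 1) / 2) (ε η : ℝ) (hε : 0 < ε)
    (hη : 0 < η) :
    ∃ c : ℝ, 0 < c ∧ ∀ H : ℕ, 1 ≤ H →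
      {ξ : ℝ | Alg d H ξ ∧ ∃ (p : ℤ) (q : ℕ), 2 ≤ q ∧ (q : ℝ) ≤ (H : ℝ) ^ κ ∧
          |ξ - (p : ℝ) / q| ≤ c / ((q : ℝ) ^ 2 * Real.log q ^ (1 + ε))}.Finite ∧
      ({ξ : ℝ | Alg d H ξ ∧ ∃ (p : ℤ) (q : ℕ), 2 ≤ q ∧ (q : ℝ) ≤ (H : ℝ) ^ κ ∧
          |ξ - (p : ℝ) / q| ≤ c / ((q : ℝ) ^ 2 * Real.log q ^ (1 + ε))}.ncard : ℝ) ≤
        η * (H : ℝ) ^ (d + 1) := by
  classical
  obtain ⟨σ, hσ, C, hC, hmain⟩ := main d hd κ hκ
  have hW := w_summable ε hε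
  set W : ℝ := ∑' q : ℕ, (q : ℝ) * w ε q with hWdef
  have hW0 : 0 ≤ W := tsum_nonneg fun q => mul_nonneg (Nat.cast_nonneg q) (w_pos ε q).le
  set c1 : ℝ := η / (2 * C * (W + 1)) with hc1
  have hc10 : 0 < c1 := by positivity
  -- large heights
  have htend : Tendsto (fun H : ℕ => (H : ℝ) ^ (-σ)) atTop (nhds 0) :=
    (tendsto_rpow_neg_atTop hσ).comp tendsto_natCast_atTop_atTop
  obtain ⟨H0, hH0⟩ := eventually_atTop.mp
    (htend.eventually (gt_mem_nhds (by positivity : 0 < η / (2 * C))))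
  obtain ⟨c2, hc2, hfew⟩ := Pool.Agent.Results.MP_c307ca_nt.AlmostAllBeyondHeight.few_heights
    d hd κ ε hε H0
  refine ⟨min c1 c2, lt_min hc10 hc2, fun H hH => ?_⟩
  set c : ℝ := min c1 c2 with hc
  have hc0 : 0 < c := lt_min hc10 hc2
  have hall := card_all d H (by omega) hH {ξ : ℝ | Alg d H ξ ∧ ∃ (p : ℤ) (q : ℕ), 2 ≤ q ∧
    (q : ℝ) ≤ (H : ℝ) ^ κ ∧ |ξ - (p : ℝ) / q| ≤ c / ((q : ℝ) ^ 2 * Real.log q ^ (1 + ε))}
    (fun ξ hξ => hξ.1)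
  refine ⟨hall.1, ?_⟩
  by_cases hHH : H0 ≤ H
  · set ψ : ℕ → ℝ := fun q => c * (q * w ε q) with hψ
    have hψ0 : ∀ q, 0 ≤ ψ q := fun q =>
      mul_nonneg hc0.le (mul_nonneg (Nat.cast_nonneg q) (w_pos ε q).le)
    obtain ⟨h1, h2⟩ := hmain ψ hψ0 H hH
    have hsub : {ξ : ℝ | Alg d H ξ ∧ ∃ (p : ℤ) (q : ℕ), 2 ≤ q ∧ (q : ℝ) ≤ (H : ℝ) ^ κ ∧
          |ξ - (p : ℝ) / q| ≤ c / ((q : ℝ) ^ 2 * Real.log q ^ (1 + ε))} ⊆ Exc d H κ ψ := by
      rintro ξ ⟨hξ, p, q, hq2, hqκ, hle⟩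
      refine ⟨hξ, p, q, by omega, hqκ, hle.trans (le_of_eq ?_)⟩
      have hq0 : (0 : ℝ) < q := by exact_mod_cast (by omega : 0 < q)
      have h3 := w_eq ε c q hq2
      simp only [hψ]
      rw [h3]
      field_simp
    have h3 : ({ξ : ℝ | Alg d H ξ ∧ ∃ (p : ℤ) (q : ℕ), 2 ≤ q ∧ (q : ℝ) ≤ (H : ℝ) ^ κ ∧
          |ξ - (p : ℝ) / q| ≤ c / ((q : ℝ) ^ 2 * Real.log q ^ (1 + ε))}.ncard : ℝ) ≤
        ((Exc d H κ ψ).ncard : ℝ) := by
      exact_mod_cast Set.ncard_le_ncard hsub h1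
    refine h3.trans (h2.trans ?_)
    have h4 : ∑ q ∈ Icc 1 ⌊(H : ℝ) ^ κ⌋₊, ψ q ≤ c * W := by
      simp only [hψ]
      rw [← Finset.mul_sum]
      apply mul_le_mul_of_nonneg_left _ hc0.le
      exact hW.sum_le_tsum _ fun q _ => mul_nonneg (Nat.cast_nonneg q) (w_pos ε q).le
    have h5 : c * W ≤ η / (2 * C) := by
      calc c * W ≤ c1 * (W + 1) :=
            mul_le_mul (min_le_left _ _) (by linarith) hW0 hc10.le
        _ = η / (2 * C) := by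
            rw [hc1]
            field_simp
    have h6 := hH0 H hHH
    have hP0 : (0 : ℝ) ≤ C * (H : ℝ) ^ (d + 1) := by positivity
    calc C * (H : ℝ) ^ (d + 1) * (∑ q ∈ Icc 1 ⌊(H : ℝ) ^ κ⌋₊, ψ q + (H : ℝ) ^ (-σ))
        ≤ C * (H : ℝ) ^ (d + 1) * (η / (2 * C) + η / (2 * C)) :=
          mul_le_mul_of_nonneg_left (by linarith) hP0
      _ = η * (H : ℝ) ^ (d + 1) := by
          field_simp
          ring
  · push Not at hHH
    have hempty : {ξ : ℝ | Alg d H ξ ∧ ∃ (p : ℤ) (q : ℕ), 2 ≤ q ∧ (q : ℝ) ≤ (H : ℝ) ^ κ ∧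
          |ξ - (p : ℝ) / q| ≤ c / ((q : ℝ) ^ 2 * Real.log q ^ (1 + ε))} = ∅ := by
      rw [Set.eq_empty_iff_forall_notMem]
      rintro ξ ⟨hξ, p, q, hq2, hqκ, hle⟩
      have h1 := hfew H hHH ξ hξ p q hq2 hqκ
      have hlog : 0 < Real.log q := Real.log_pos (by
        have : (2 : ℝ) ≤ q := by exact_mod_cast hq2
        linarith)
      have hpos : 0 ≤ (q : ℝ) ^ 2 * Real.log q ^ (1 + ε) := by positivity
      have h2 : c / ((q : ℝ) ^ 2 * Real.log q ^ (1 + ε)) ≤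
          c2 / ((q : ℝ) ^ 2 * Real.log q ^ (1 + ε)) :=
        div_le_div_of_nonneg_right (min_le_right _ _) hpos
      linarith
    rw [hempty, Set.ncard_empty, Nat.cast_zero]
    positivity

end Pool.Agent.H15.LB
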